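import Pool.Agent.Run7.h229.Iface

set_option autoImplicit false

namespace Pool.Agent.Run7.H229

variable {K : Type} [Field K] {B : Type} [Ring B] [Algebra K B] {m : ℕ}

theorem finN (D : YData K B m) : FiniteDimensional K (YN D) := by
  haveI := D.fin
  haveI : Module.Finite K (YM D) :=
    Module.Finite.of_surjective ((Submodule.mkQ (Submodule.span B {D.x 1})).restrictScalars K)
      (Submodule.mkQ_surjective _)
  infer_instance

/-- piece A0 -/
theorem stmtA0 : StmtA0 := by
  intro K _ B _ _ m D
  haveI := finN D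
  refine FiniteDimensional.of_injective
    (LinearMap.restrictScalarsₗ K B (YN D) (YN D) K : YA D →ₗ[K] (YN D →ₗ[K] YN D)) ?_
  intro a b h
  exact LinearMap.restrictScalars_injective K h

theorem mk_eq_zero (D : YData K B m) (y : B) :
    (Submodule.Quotient.mk y : YM D) = 0 ↔ ∃ c, y = c * D.x 1 := by
  rw [Submodule.Quotient.mk_eq_zero, Submodule.mem_span_singleton]
  simp only [smul_eq_mul, eq_comm]

/-- the endomorphism `(b, m) ↦ b • n` -/
def iN (D : YData K B m) (n : YN D) : YA D :=
  (LinearMap.toSpanSingleton B (YN D) n).comp (LinearMap.fst B B (YM D))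

@[simp] theorem iN_apply (D : YData K B m) (n p : YN D) : iN D n p = p.1 • n := rfl

/-- the endomorphism `(b, ȳ) ↦ y • n` for `x_1 • n = 0` -/
def sN (D : YData K B m) (n : YN D) (h : D.x 1 • n = 0) : YA D :=
  (Submodule.liftQ (Submodule.span B {D.x 1}) (LinearMap.toSpanSingleton B (YN D) n) (by
    rw [Submodule.span_le]
    intro z hz
    rw [Set.mem_singleton_iff] at hz
    subst hz
    simpa using h)).comp (LinearMap.snd B B (YM D))

@[simp] theorem sN_apply (D : YData K B m) (n : YN D) (h : D.x 1 • n = 0) (b y : B) :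
    sN D n h (b, Submodule.Quotient.mk y) = y • n := rfl

/-- the Frobenius form identifies `B` with its dual -/
theorem frob_surj (D : YData K B m) (ψ : B →ₗ[K] K) : ∃ b0, ∀ c, D.φ (b0 * c) = ψ c := by
  haveI := D.fin
  let F : B →ₗ[K] Module.Dual K B :=
    { toFun := fun b => D.φ.comp (LinearMap.mulLeft K b)
      map_add' := by
        intro a b
        ext c
        simp [add_mul]
      map_smul' := by
        intro r b
        ext c
        simp }
  have hinj : Function.Injective F := by
    rw [← LinearMap.ker_eq_bot, LinearMap.ker_eq_bot']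
    intro b hb
    apply D.frob
    intro c
    have := LinearMap.congr_fun hb c
    simpa [F] using this
  have hsurj : Function.Surjective F :=
    (LinearMap.injective_iff_surjective_of_finrank_eq_finrank
      (Subspace.dual_finrank_eq (K := K) (V := B)).symm).1 hinj
  obtain ⟨b0, hb0⟩ := hsurj ψ
  exact ⟨b0, fun c => by
    have := LinearMap.congr_fun hb0 c
    simpa [F] using this⟩

theorem x1x0 (D : YData K B m) (c : B) : D.x 1 * (D.x 0 * c) = 0 :=
  (D.rann 0 _).2 ⟨c, rfl⟩

/-- `N` is torsionless with respect to the form -/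
theorem sep (D : YData K B m) (n : YN D) (h : ∀ a : YA D, D.φ ((a n).1) = 0) : n = 0 := by
  obtain ⟨b, y⟩ := n
  obtain ⟨y, rfl⟩ := Submodule.Quotient.mk_surjective _ y
  have h1 : b = 0 := by
    apply D.frob
    intro c
    have := h (iN D (c, 0))
    simpa using this
  have h2 : y * D.x 0 = 0 := by
    apply D.frob
    intro c
    have hc : D.x 1 • ((D.x 0 * c, 0) : YN D) = 0 := by
      simp [x1x0]
    have := h (sN D (D.x 0 * c, 0) hc)
    rw [sN_apply] at this
    simpa [mul_assoc] using this
  have h3 : (Submodule.Quotient.mk y : YM D) = 0 := (mk_eq_zero D y).2 ((D.lann y).1 h2)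
  rw [h1, h3]
  rfl

/-- the kernel of left multiplication by `x_1` -/
abbrev Wk (D : YData K B m) : Submodule K B := LinearMap.ker (LinearMap.mulLeft K (D.x 1))

theorem Wk_mem (D : YData K B m) (c : Wk D) : D.x 1 • ((c.1, 0) : YN D) = 0 := by
  have := c.2
  rw [LinearMap.mem_ker, LinearMap.mulLeft_apply] at this
  simp [this]

/-- `c ↦ ((b, ȳ) ↦ (y c, 0))` -/
def Sl (D : YData K B m) : Wk D →ₗ[K] YA D where
  toFun c := sN D (c.1, 0) (Wk_mem D c)
  map_add' := by
    intro a b
    apply LinearMap.ext
    rintro ⟨p, y⟩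
    obtain ⟨y, rfl⟩ := Submodule.Quotient.mk_surjective _ y
    rw [LinearMap.add_apply, sN_apply, sN_apply, sN_apply]
    simp [mul_add]
  map_smul' := by
    intro r b
    apply LinearMap.ext
    rintro ⟨p, y⟩
    obtain ⟨y, rfl⟩ := Submodule.Quotient.mk_surjective _ y
    rw [LinearMap.smul_apply, sN_apply, sN_apply]
    simp

/-- `b' ↦ ((b, m) ↦ (b b', 0))` -/
def Rl (D : YData K B m) : B →ₗ[K] YA D where
  toFun c := iN D (c, 0)
  map_add' := by
    intro a b
    apply LinearMap.ext
    rintro ⟨p, y⟩
    simp [mul_add]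
  map_smul' := by
    intro r b
    apply LinearMap.ext
    rintro ⟨p, y⟩
    simp

/-- the projection of `N` to `B` -/
def eN (D : YData K B m) : YA D := iN D (1, 0)

theorem apply_fst_mem (D : YData K B m) (a : YA D) :
    D.x 1 * (a (0, Submodule.Quotient.mk 1)).1 = 0 := by
  have h : D.x 1 • ((0, Submodule.Quotient.mk 1) : YN D) = 0 := by
    have : (D.x 1 • (Submodule.Quotient.mk (1 : B) : YM D)) = 0 := by
      rw [← Submodule.Quotient.mk_smul]
      exact (mk_eq_zero D _).2 ⟨1, by simp⟩
    ext
    · simp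
    · exact this
  have := congrArg Prod.fst (congrArg a h)
  rw [map_smul, map_zero] at this
  simpa using this

theorem split (D : YData K B m) (b y : B) :
    ((b, Submodule.Quotient.mk y) : YN D) = b • ((1, 0) : YN D) + y • ((0, Submodule.Quotient.mk 1) : YN D) := by
  have : (y • (Submodule.Quotient.mk (1 : B) : YM D)) = Submodule.Quotient.mk y := by
    rw [← Submodule.Quotient.mk_smul]
    simp
  ext
  · simp
  · simp [this]

theorem eN_mul (D : YData K B m) (h : YA D) :
    eN D * h = Rl D (h (1, 0)).1 +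
      Sl D ⟨(h (0, Submodule.Quotient.mk 1)).1, by
        rw [LinearMap.mem_ker, LinearMap.mulLeft_apply]; exact apply_fst_mem D h⟩ := by
  apply LinearMap.ext
  rintro ⟨b, y⟩
  obtain ⟨y, rfl⟩ := Submodule.Quotient.mk_surjective _ y
  rw [LinearMap.add_apply, Module.End.mul_apply]
  conv_lhs => rw [split D b y, map_add, map_smul, map_smul]
  simp only [eN, iN_apply, Rl, Sl, LinearMap.coe_mk, AddHom.coe_mk, sN_apply]
  simp

/-- piece A1a -/
theorem stmtA1a : StmtA1a := by
  intro K _ B _ _ m D
  constructor
  · let i : YN D →ₗ[YA D] YA D :=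
      { toFun := fun n => iN D n
        map_add' := by
          intro n n'
          apply LinearMap.ext
          intro p
          simp [smul_add]
        map_smul' := by
          intro a n
          apply LinearMap.ext
          intro p
          show p.1 • (a n) = a (p.1 • n)
          rw [map_smul] }
    let s : YA D →ₗ[YA D] YN D :=
      { toFun := fun a => a (1, 0)
        map_add' := by
          intro a b
          rfl
        map_smul' := by
          intro a b
          rfl }
    refine Module.Projective.of_split i s ?_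
    apply LinearMap.ext
    intro n
    show iN D n (1, 0) = n
    simp
  · apply Module.Baer.injective
    intro I f
    haveI := stmtA0 D
    -- functional on the ideal
    let IK : Submodule K (YA D) := I.restrictScalars K
    let g : IK →ₗ[K] K :=
      { toFun := fun a => D.φ ((f ⟨a.1, a.2⟩).1)
        map_add' := by
          intro a b
          have : f ⟨a.1 + b.1, I.add_mem a.2 b.2⟩ = f ⟨a.1, a.2⟩ + f ⟨b.1, b.2⟩ := by
            rw [← map_add]; rfl
          show D.φ ((f ⟨a.1 + b.1, _⟩).1) = _
          rw [this]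
          simp
        map_smul' := by
          intro r a
          have h1 : r • a.1 = (r • (1 : YA D)) * a.1 := by simp
          have h2 : (r • (1 : YA D)) * a.1 ∈ I := I.mul_mem_left _ a.2
          have : f ⟨(r • (1 : YA D)) * a.1, h2⟩ = (r • (1 : YA D)) • f ⟨a.1, a.2⟩ := by
            rw [← map_smul]; rfl
          have h3 : ((r • (1 : YA D)) • f ⟨a.1, a.2⟩) = r • f ⟨a.1, a.2⟩ := by
            show (r • (1 : YA D)) (f ⟨a.1, a.2⟩) = _
            simp
          show D.φ ((f ⟨r • a.1, _⟩).1) = r * D.φ ((f ⟨a.1, a.2⟩).1)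
          have h4 : f ⟨r • a.1, IK.smul_mem r a.2⟩ = r • f ⟨a.1, a.2⟩ := by
            rw [← h3, ← this]
            congr 1
          rw [h4]
          simp }
    obtain ⟨Ψ, hΨ⟩ := LinearMap.exists_extend g
    obtain ⟨b0, hb0⟩ := frob_surj D (Ψ.comp (Rl D))
    obtain ⟨χ, hχ⟩ := LinearMap.exists_extend (Ψ.comp (Sl D))
    obtain ⟨y0, hy0⟩ := frob_surj D χ
    let n0 : YN D := (b0, Submodule.Quotient.mk y0)
    have key : ∀ h : YA D, D.φ ((h n0).1) = Ψ (eN D * h) := by
      intro h
      rw [eN_mul]
      show D.φ ((h (b0, Submodule.Quotient.mk y0)).1) = _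
      rw [split D b0 y0, map_add, map_smul, map_smul, map_add]
      have e1 : Ψ (Rl D (h (1, 0)).1) = D.φ (b0 * (h (1, 0)).1) := by
        rw [hb0]; rfl
      have e2 : ∀ c : Wk D, Ψ (Sl D c) = D.φ (y0 * c.1) := by
        intro c
        rw [hy0]
        exact (LinearMap.congr_fun hχ c).symm
      rw [e1, e2]
      simp
    have fin : ∀ a (ha : a ∈ I), f ⟨a, ha⟩ = a n0 := by
      intro a ha
      rw [← sub_eq_zero]
      apply sep
      intro h
      have e1 : (h (f ⟨a, ha⟩)) = f ⟨h * a, I.mul_mem_left _ ha⟩ := by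
        have : f ⟨h * a, I.mul_mem_left _ ha⟩ = h • f ⟨a, ha⟩ := by
          rw [← map_smul]; rfl
        rw [this]; rfl
      have e2 : ((f ⟨h * a, I.mul_mem_left _ ha⟩).1) =
          (f ⟨eN D * (h * a), I.mul_mem_left _ (I.mul_mem_left _ ha)⟩).1 := by
        have : f ⟨eN D * (h * a), I.mul_mem_left _ (I.mul_mem_left _ ha)⟩ =
            eN D • f ⟨h * a, I.mul_mem_left _ ha⟩ := by
          rw [← map_smul]; rfl
        rw [this]
        show _ = (eN D (f ⟨h * a, _⟩)).1
        simp [eN]
      have e3 : D.φ ((f ⟨eN D * (h * a), I.mul_mem_left _ (I.mul_mem_left _ ha)⟩).1) =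
          Ψ (eN D * (h * a)) :=
        (LinearMap.congr_fun hΨ ⟨eN D * (h * a), I.mul_mem_left _ (I.mul_mem_left _ ha)⟩).symm
      have e4 : Ψ (eN D * (h * a)) = D.φ ((h (a n0)).1) := (key (h * a)).symm
      rw [map_sub, Prod.fst_sub, map_sub, e1, e2, e3, e4, sub_self]
    refine ⟨LinearMap.toSpanSingleton (YA D) (YN D) n0, ?_⟩
    intro a ha
    rw [fin a ha]
    rfl

end Pool.Agent.Run7.H229
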