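import Pool.Agent.Run7.h229.A1a

set_option autoImplicit false

namespace Pool.Agent.Run7.H229

variable {K : Type} [Field K] {B : Type} [Ring B] [Algebra K B] {m : ℕ}

/-- multiplication by `b ∈ B` on `N`, linear over `A = End_B N` -/
def lmul (D : YData K B m) (b : B) : YN D →ₗ[YA D] YN D where
  toFun n := b • n
  map_add' := by intro n n'; exact smul_add b n n'
  map_smul' := by
    intro a n
    show b • (a n) = a (b • n)
    rw [map_smul]

@[simp] theorem lmul_apply (D : YData K B m) (b : B) (n : YN D) : lmul D b n = b • n := rfl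

theorem xx (D : YData K B m) (j : ℕ) : D.x (j + 1) * D.x j = 0 := by
  have := (D.rann j (D.x j * 1)).2 ⟨1, rfl⟩
  simpa using this

theorem mk_smul' (D : YData K B m) (b y : B) :
    b • (Submodule.Quotient.mk y : YM D) = Submodule.Quotient.mk (b * y) := by
  rw [← Submodule.Quotient.mk_smul]; rfl

/-- exactness of multiplication by `x_j`, `x_{j+1}` on `N` for `1 ≤ j < m` -/
theorem exN (D : YData K B m) (j : ℕ) (h1 : 1 ≤ j) (h2 : j < m) (n : YN D) :
    D.x (j + 1) • n = 0 ↔ ∃ n' : YN D, D.x j • n' = n := by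
  constructor
  · intro h
    obtain ⟨b, y⟩ := n
    obtain ⟨y, rfl⟩ := Submodule.Quotient.mk_surjective _ y
    have hb : D.x (j + 1) * b = 0 := by
      have := congrArg Prod.fst h
      simpa using this
    have hy : (Submodule.Quotient.mk (D.x (j + 1) * y) : YM D) = 0 := by
      rw [← mk_smul']
      exact congrArg Prod.snd h
    obtain ⟨c, hc⟩ := (D.rann j b).1 hb
    obtain ⟨u, v, huv⟩ := D.exM j h1 h2 y ((mk_eq_zero D _).1 hy)
    refine ⟨(c, Submodule.Quotient.mk u), ?_⟩
    have e : (Submodule.Quotient.mk y : YM D) = Submodule.Quotient.mk (D.x j * u) := by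
      rw [huv, Submodule.Quotient.mk_add]
      have : (Submodule.Quotient.mk (v * D.x 1) : YM D) = 0 := (mk_eq_zero D _).2 ⟨v, rfl⟩
      rw [this, add_zero]
    apply Prod.ext
    · exact hc.symm
    · show D.x j • (Submodule.Quotient.mk u : YM D) = Submodule.Quotient.mk y
      rw [mk_smul', e]
  · rintro ⟨n', rfl⟩
    rw [smul_smul, xx, zero_smul]

/-- the terms of the coresolution -/
def Ires (D : YData K B m) : ℕ → ModuleCat.{0} (YA D)
  | 0 => ModuleCat.of _ (YN D × YN D)
  | (_ + 1) => ModuleCat.of _ (YN D)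

/-- the maps of the coresolution -/
def dres (D : YData K B m) : ∀ i, Ires D i →ₗ[YA D] Ires D (i + 1)
  | 0 => (lmul D (D.x 1)).comp (LinearMap.snd (YA D) (YN D) (YN D))
  | (j + 1) => lmul D (D.x (j + 2))

/-- the coaugmentation -/
def eres (D : YData K B m) : YA D →ₗ[YA D] Ires D 0 where
  toFun a := ((a (1, 0), a (0, Submodule.Quotient.mk 1)) : YN D × YN D)
  map_add' := by intro a b; rfl
  map_smul' := by intro a b; rfl

theorem x1one (D : YData K B m) : D.x 1 • ((0, Submodule.Quotient.mk 1) : YN D) = 0 := by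
  have : (D.x 1 • (Submodule.Quotient.mk (1 : B) : YM D)) = 0 := by
    rw [mk_smul']
    exact (mk_eq_zero D _).2 ⟨1, by simp⟩
  apply Prod.ext
  · simp
  · exact this

theorem eres_inj (D : YData K B m) : Function.Injective (eres D) := by
  intro a b h
  have h1 : a (1, 0) = b (1, 0) := congrArg Prod.fst h
  have h2 : a (0, Submodule.Quotient.mk 1) = b (0, Submodule.Quotient.mk 1) := congrArg Prod.snd h
  apply LinearMap.ext
  rintro ⟨p, y⟩
  obtain ⟨y, rfl⟩ := Submodule.Quotient.mk_surjective _ y
  rw [split D p y, map_add, map_add, map_smul, map_smul, map_smul, map_smul, h1, h2]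

theorem ex0 (D : YData K B m) : Function.Exact (eres D) (dres D 0) := by
  intro n
  constructor
  · intro h
    obtain ⟨n, n'⟩ := n
    have h' : D.x 1 • n' = 0 := h
    refine ⟨iN D n + sN D n' h', ?_⟩
    show (((iN D n + sN D n' h') (1, 0), (iN D n + sN D n' h') (0, Submodule.Quotient.mk 1)) :
      YN D × YN D) = (n, n')
    have e0 : sN D n' h' (1, 0) = 0 := by
      have := sN_apply D n' h' 1 0
      rw [zero_smul] at this
      exact this
    rw [LinearMap.add_apply, LinearMap.add_apply, sN_apply, e0]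
    simp
  · rintro ⟨a, rfl⟩
    show D.x 1 • (a (0, Submodule.Quotient.mk 1)) = 0
    rw [← map_smul, x1one, map_zero]

theorem exS (D : YData K B m) (i : ℕ) (hi : i + 1 < m) :
    Function.Exact (dres D i) (dres D (i + 1)) := by
  intro n
  have key := exN D (i + 1) (by omega) hi n
  rcases i with _ | i
  · constructor
    · intro h
      obtain ⟨n', hn'⟩ := key.1 h
      exact ⟨((0, n') : YN D × YN D), hn'⟩
    · rintro ⟨p, hp⟩
      exact key.2 ⟨p.2, hp⟩
  · constructor
    · intro h
      obtain ⟨n', hn'⟩ := key.1 h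
      exact ⟨n', hn'⟩
    · rintro ⟨p, hp⟩
      exact key.2 ⟨p, hp⟩

theorem Ires_pi (D : YData K B m) (j : ℕ) :
    Module.Projective (YA D) (Ires D j) ∧ Module.Injective (YA D) (Ires D j) := by
  obtain ⟨hp, hi⟩ := stmtA1a D
  rcases j with _ | j
  · refine ⟨?_, ?_⟩
    · show Module.Projective (YA D) (YN D × YN D)
      infer_instance
    · show Module.Injective (YA D) (YN D × YN D)
      refine ⟨?_⟩
      intro X Y _ _ _ _ f hf g
      obtain ⟨h1, hh1⟩ := hi.out f hf ((LinearMap.fst (YA D) (YN D) (YN D)).comp g)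
      obtain ⟨h2, hh2⟩ := hi.out f hf ((LinearMap.snd (YA D) (YN D) (YN D)).comp g)
      refine ⟨h1.prod h2, fun x => ?_⟩
      apply Prod.ext
      · exact hh1 x
      · exact hh2 x
  · exact ⟨hp, hi⟩

/-- piece A1b -/
theorem stmtA1b : StmtA1b := by
  intro K _ B _ _ m D hm j hj
  refine ⟨Ires D, eres D, dres D, eres_inj D, fun _ => ex0 D, ?_, fun j _ => Ires_pi D j⟩
  intro i hi
  exact exS D i (by omega)

end Pool.Agent.Run7.H229
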