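import Pool.Agent.Run7.h229.Iface

/-!
# Piece A2: the dominant dimension of `A` is less than `m + 2`

`Cod A k X`: there is an exact sequence `0 → X → I_0 → ⋯ → I_(k-1) → I_k` with `I_0, …, I_(k-1)`
projective and injective and `I_k` projective.  By Schanuel's lemma the cokernels in such a
sequence can be computed with any other embedding into projective-injective modules.
-/

set_option autoImplicit false

namespace Pool.Agent.Run7.H229

open CategoryTheory

section Cod

variable (A : Type) [Ring A]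

/-- exact sequences `0 → X → I_0 → ⋯ → I_k` -/
def Cod : ℕ → ModuleCat.{0} A → Prop
  | 0, X => ∃ (P : ModuleCat.{0} A) (f : X →ₗ[A] P), Function.Injective f ∧ Module.Projective A P
  | k + 1, X => ∃ (I Y : ModuleCat.{0} A) (f : X →ₗ[A] I) (g : I →ₗ[A] Y),
      Function.Injective f ∧ Function.Exact f g ∧ Function.Surjective g ∧
      Module.Projective A I ∧ Module.Injective A I ∧ Cod k Y

variable {A}

theorem Cod.iso {k : ℕ} {X X' : ModuleCat.{0} A} (h : Cod A k X) (e : X ≃ₗ[A] X') :
    Cod A k X' := by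
  cases k with
  | zero =>
    obtain ⟨P, f, hf, hP⟩ := h
    exact ⟨P, f ∘ₗ e.symm.toLinearMap, hf.comp e.symm.injective, hP⟩
  | succ k =>
    obtain ⟨I, Y, f, g, hf, hfg, hg, hP, hI, hY⟩ := h
    refine ⟨I, Y, f ∘ₗ e.symm.toLinearMap, g, hf.comp e.symm.injective, ?_, hg, hP, hI, hY⟩
    intro y
    rw [hfg y]
    constructor
    · rintro ⟨x, rfl⟩
      exact ⟨e x, by simp⟩
    · rintro ⟨x, rfl⟩
      exact ⟨e.symm x, rfl⟩

theorem injective_prod {I J : Type} [AddCommGroup I] [Module A I] [AddCommGroup J] [Module A J]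
    (hI : Module.Injective A I) (hJ : Module.Injective A J) : Module.Injective A (I × J) := by
  constructor
  intro X Y _ _ _ _ f hf g
  obtain ⟨u, hu⟩ := hI.out f hf (LinearMap.fst A I J ∘ₗ g)
  obtain ⟨v, hv⟩ := hJ.out f hf (LinearMap.snd A I J ∘ₗ g)
  refine ⟨u.prod v, fun x => ?_⟩
  ext
  · simpa using hu x
  · simpa using hv x

theorem Cod.add {k : ℕ} {X J : ModuleCat.{0} A} (h : Cod A k X) (hJP : Module.Projective A J)
    (hJI : Module.Injective A J) : Cod A k (ModuleCat.of A (X × J)) := by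
  cases k with
  | zero =>
    obtain ⟨P, f, hf, hP⟩ := h
    refine ⟨ModuleCat.of A (P × J), f.prodMap LinearMap.id, ?_, ?_⟩
    · exact hf.prodMap Function.injective_id
    · change Module.Projective A (P × J)
      infer_instance
  | succ k =>
    obtain ⟨I, Y, f, g, hf, hfg, hg, hP, hI, hY⟩ := h
    refine ⟨ModuleCat.of A (I × J), Y, f.prodMap LinearMap.id, g ∘ₗ LinearMap.fst A I J, ?_, ?_,
      ?_, ?_, injective_prod hI hJI, hY⟩
    · exact hf.prodMap Function.injective_id
    · rintro ⟨i, j⟩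
      constructor
      · intro h
        obtain ⟨x, hx⟩ := (hfg i).1 h
        exact ⟨(x, j), by ext <;> simp [hx]⟩
      · rintro ⟨⟨x, j'⟩, h⟩
        have h1 : f x = i := congrArg Prod.fst h
        exact (hfg i).2 ⟨x, h1⟩
    · exact hg.comp Prod.fst_surjective
    · change Module.Projective A (I × J)
      infer_instance

theorem Cod.cancel {k : ℕ} {X J : ModuleCat.{0} A} (h : Cod A k (ModuleCat.of A (X × J)))
    (hJP : Module.Projective A J) (hJI : Module.Injective A J) : Cod A k X := by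
  cases k with
  | zero =>
    obtain ⟨P, f, hf, hP⟩ := h
    refine ⟨P, f ∘ₗ LinearMap.inl A X J, ?_, hP⟩
    exact hf.comp LinearMap.inl_injective
  | succ k =>
    obtain ⟨I, Y, f, g, hf, hfg, hg, hP, hI, hY⟩ := h
    obtain ⟨r, hr⟩ := hJI.out (X := X × J) (Y := I) f hf (LinearMap.snd A X J)
    refine ⟨I, ModuleCat.of A (Y × J), f ∘ₗ LinearMap.inl A X J, g.prod r,
      hf.comp LinearMap.inl_injective, ?_, ?_, hP, hI, hY.add hJP hJI⟩
    · intro i
      constructor
      · intro h
        have h1 : g i = 0 := congrArg Prod.fst h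
        have h2 : r i = 0 := congrArg Prod.snd h
        obtain ⟨⟨x, j⟩, rfl⟩ := (hfg i).1 h1
        have h3 : j = 0 := by
          have := hr (x, j)
          rw [h2] at this
          simpa using this.symm
        exact ⟨x, by rw [h3]; rfl⟩
      · rintro ⟨x, rfl⟩
        have h1 : g (f (x, 0)) = 0 := (hfg _).2 ⟨(x, 0), rfl⟩
        have h2 : r (f (x, 0)) = 0 := by rw [hr (x, 0)]; rfl
        exact Prod.ext h1 h2
    · rintro ⟨y, j⟩
      obtain ⟨i, hi⟩ := hg y
      have h1 : g (f (0, j - r i)) = 0 := (hfg _).2 ⟨(0, j - r i), rfl⟩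
      have h2 : r (f (0, j - r i)) = j - r i := by rw [hr (0, j - r i)]; rfl
      refine ⟨i + f (0, j - r i), ?_⟩
      refine Prod.ext ?_ ?_
      · change g (i + f (0, j - r i)) = y
        rw [map_add, h1, hi, add_zero]
      · change r (i + f (0, j - r i)) = j
        rw [map_add, h2]
        abel

theorem Cod.indep {k : ℕ} {X : ModuleCat.{0} A} (h : Cod A (k + 1) X)
    {J Y' : ModuleCat.{0} A} (f' : X →ₗ[A] J) (g' : J →ₗ[A] Y') (hf' : Function.Injective f')
    (hfg' : Function.Exact f' g') (hg' : Function.Surjective g')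
    (hJP : Module.Projective A J) (hJI : Module.Injective A J) : Cod A k Y' := by
  obtain ⟨I, Y, f, g, hf, hfg, hg, hP, hI, hY⟩ := h
  obtain ⟨φ, hφ⟩ := hJI.out (X := X) (Y := I) f hf f'
  obtain ⟨ψ, hψ⟩ := hI.out (X := X) (Y := J) f' hf' f
  let s1 : (I × J) →ₗ[A] (Y' × I) :=
    (g' ∘ₗ LinearMap.snd A I J).prod (LinearMap.fst A I J - ψ ∘ₗ LinearMap.snd A I J)
  let s2 : (I × J) →ₗ[A] (Y × J) :=
    (g ∘ₗ LinearMap.fst A I J).prod (LinearMap.snd A I J - φ ∘ₗ LinearMap.fst A I J)
  have k1 : ∀ i j, s1 (i, j) = 0 ↔ ∃ x, f x = i ∧ f' x = j := by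
    intro i j
    have hs : s1 (i, j) = (g' j, i - ψ j) := rfl
    rw [hs, Prod.mk_eq_zero]
    constructor
    · rintro ⟨h1, h2⟩
      obtain ⟨x, rfl⟩ := (hfg' j).1 h1
      rw [hψ x, sub_eq_zero] at h2
      exact ⟨x, h2.symm, rfl⟩
    · rintro ⟨x, rfl, rfl⟩
      exact ⟨(hfg' _).2 ⟨x, rfl⟩, by rw [hψ x, sub_self]⟩
  have k2 : ∀ i j, s2 (i, j) = 0 ↔ ∃ x, f x = i ∧ f' x = j := by
    intro i j
    have hs : s2 (i, j) = (g i, j - φ i) := rfl
    rw [hs, Prod.mk_eq_zero]
    constructor
    · rintro ⟨h1, h2⟩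
      obtain ⟨x, rfl⟩ := (hfg i).1 h1
      rw [hφ x, sub_eq_zero] at h2
      exact ⟨x, rfl, h2.symm⟩
    · rintro ⟨x, rfl, rfl⟩
      exact ⟨(hfg _).2 ⟨x, rfl⟩, by rw [hφ x, sub_self]⟩
  have hk : LinearMap.ker s2 = LinearMap.ker s1 := by
    ext ⟨i, j⟩
    rw [LinearMap.mem_ker, LinearMap.mem_ker, k1, k2]
  have h1 : Function.Surjective s1 := by
    rintro ⟨y, i⟩
    obtain ⟨j, rfl⟩ := hg' y
    refine ⟨(i + ψ j, j), ?_⟩
    change (g' j, i + ψ j - ψ j) = _
    rw [add_sub_cancel_right]
  have h2 : Function.Surjective s2 := by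
    rintro ⟨y, j⟩
    obtain ⟨i, rfl⟩ := hg y
    refine ⟨(i, j + φ i), ?_⟩
    change (g i, j + φ i - φ i) = _
    rw [add_sub_cancel_right]
  have e : (Y × J) ≃ₗ[A] (Y' × I) :=
    (s2.quotKerEquivOfSurjective h2).symm ≪≫ₗ (Submodule.quotEquivOfEq _ _ hk) ≪≫ₗ
      (s1.quotKerEquivOfSurjective h1)
  have h3 : Cod A k (ModuleCat.of A (Y' × I)) :=
    Cod.iso (X := ModuleCat.of A (Y × J)) (X' := ModuleCat.of A (Y' × I)) (hY.add hJP hJI) e
  exact h3.cancel hP hI

/-- a sequence as in `DomDimGE A (m + 2)` -/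
theorem DomDimGE.cod {m : ℕ} (h : DomDimGE A (m + 2)) : Cod A (m + 1) (ModuleCat.of A A) := by
  obtain ⟨I, ε, d, hε, h0, hd, hI⟩ := h
  have key : ∀ k j, j + k = m → Cod A k (ModuleCat.of A (LinearMap.range (d j))) := by
    intro k
    induction k with
    | zero =>
      intro j hj
      exact ⟨I (j + 1), (LinearMap.range (d j)).subtype, Subtype.val_injective,
        (hI (j + 1) (by omega)).1⟩
    | succ k ih =>
      intro j hj
      refine ⟨I (j + 1), ModuleCat.of A (LinearMap.range (d (j + 1))),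
        (LinearMap.range (d j)).subtype, (d (j + 1)).rangeRestrict, Subtype.val_injective, ?_,
        (d (j + 1)).surjective_rangeRestrict, (hI (j + 1) (by omega)).1,
        (hI (j + 1) (by omega)).2, ih (j + 1) (by omega)⟩
      intro y
      have := hd j (by omega) y
      constructor
      · intro h
        obtain ⟨x, rfl⟩ := this.1 (congrArg Subtype.val h)
        exact ⟨⟨d j x, x, rfl⟩, rfl⟩
      · rintro ⟨⟨_, x, rfl⟩, rfl⟩
        exact Subtype.ext (this.2 ⟨x, rfl⟩)
  refine ⟨I 0, ModuleCat.of A (LinearMap.range (d 0)), ε, (d 0).rangeRestrict, hε, ?_,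
    (d 0).surjective_rangeRestrict, (hI 0 (by omega)).1, (hI 0 (by omega)).2, key m 0 (by omega)⟩
  intro y
  have := h0 (by omega) y
  constructor
  · intro h
    exact this.1 (congrArg Subtype.val h)
  · intro h
    exact Subtype.ext (this.2 h)

end Cod

section Y

variable {K : Type} [Field K] {B : Type} [Ring B] [Algebra K B] {m : ℕ}

theorem x_mul_x (D : YData K B m) (j : ℕ) : D.x (j + 1) * D.x j = 0 :=
  (D.rann j (D.x j)).2 ⟨1, by rw [mul_one]⟩

theorem mk_eq_zero' (D : YData K B m) (y : B) :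
    (Submodule.Quotient.mk y : YM D) = 0 ↔ ∃ c, y = c * D.x 1 := by
  rw [Submodule.Quotient.mk_eq_zero, Submodule.mem_span_singleton]
  constructor
  · rintro ⟨c, h⟩
    exact ⟨c, by rw [← h, smul_eq_mul]⟩
  · rintro ⟨c, h⟩
    exact ⟨c, by rw [h, smul_eq_mul]⟩

/-- multiplication by an element of `B` -/
def mulN (D : YData K B m) (b : B) : YN D →ₗ[YA D] YN D where
  toFun n := b • n
  map_add' := smul_add b
  map_smul' a n := by
    rw [RingHom.id_apply, Module.End.smul_def, Module.End.smul_def, map_smul]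

theorem mulN_apply (D : YData K B m) (b : B) (n : YN D) : mulN D b n = b • n := rfl

/-- the projection to `B` -/
def prB (D : YData K B m) : YA D := LinearMap.inl B B (YM D) ∘ₗ LinearMap.fst B B (YM D)

theorem prB_apply (D : YData K B m) (n : YN D) : prB D n = (n.1, 0) := rfl

/-- the map `(b, ȳ) ↦ (y x_0, 0)` -/
def tor (D : YData K B m) : YA D :=
  LinearMap.inl B B (YM D) ∘ₗ
    (Submodule.liftQ (Submodule.span B {D.x 1}) (LinearMap.toSpanSingleton B B (D.x 0)) (by
      rw [Submodule.span_le]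
      rintro y hy
      rw [Set.mem_singleton_iff] at hy
      subst hy
      change LinearMap.toSpanSingleton B B (D.x 0) (D.x 1) = 0
      rw [LinearMap.toSpanSingleton_apply, smul_eq_mul]
      exact x_mul_x D 0)) ∘ₗ LinearMap.snd B B (YM D)

theorem tor_apply (D : YData K B m) (b y : B) :
    tor D (b, Submodule.Quotient.mk y) = (y * D.x 0, 0) := by
  change ((LinearMap.toSpanSingleton B B (D.x 0)) y, (0 : YM D)) = _
  rw [LinearMap.toSpanSingleton_apply, smul_eq_mul]

/-- `N` is torsionless with respect to `B` -/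
theorem faithful (D : YData K B m) (n : YN D) (h : ∀ a : YA D, (a n).1 = 0) : n = 0 := by
  obtain ⟨b, y⟩ := n
  obtain ⟨y, rfl⟩ := Submodule.Quotient.mk_surjective _ y
  have h1 : b = 0 := by simpa using h 1
  have h2 := h (tor D)
  rw [tor_apply] at h2
  have h3 : (Submodule.Quotient.mk y : YM D) = 0 := (mk_eq_zero' D y).2 ((D.lann y).1 h2)
  rw [h1, h3]
  rfl

/-- linear maps from a torsion element to projective modules are zero -/
theorem proj_zero (D : YData K B m) (P : Type) [AddCommGroup P] [Module (YA D) P]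
    (hP : Module.Projective (YA D) P) (t : P) (h : ∀ a : YA D, (prB D * a) • t = 0) : t = 0 := by
  obtain ⟨s, hs⟩ : ∃ s : P →ₗ[YA D] (P →₀ YA D),
      Function.LeftInverse (Finsupp.linearCombination (YA D) id) s := hP.out
  have h1 : s t = 0 := by
    refine Finsupp.ext fun i => ?_
    rw [Finsupp.zero_apply]
    have h2 : ∀ a : YA D, (prB D * a) * (s t i) = 0 := by
      intro a
      have := congrArg (fun u => u i) (congrArg s (h a))
      simpa [Finsupp.smul_apply, smul_eq_mul] using this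
    refine LinearMap.ext fun n => ?_
    rw [LinearMap.zero_apply]
    refine faithful D _ fun a => ?_
    have h3 := congrArg (fun u : YA D => (u n).1) (h2 a)
    simpa [prB_apply] using h3
  have h4 := hs t
  rw [h1, map_zero] at h4
  exact h4.symm

/-- the map `A → N × N`, `a ↦ (a (1, 0), a (0, 1̄))` -/
def emb (D : YData K B m) : YA D →ₗ[YA D] (YN D × YN D) where
  toFun a := (a (1, 0), a (0, Submodule.Quotient.mk 1))
  map_add' _ _ := rfl
  map_smul' _ _ := rfl

theorem end_ext (D : YData K B m) (a a' : YA D) (h1 : a (1, 0) = a' (1, 0))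
    (h2 : a (0, Submodule.Quotient.mk 1) = a' (0, Submodule.Quotient.mk 1)) : a = a' := by
  refine LinearMap.ext ?_
  rintro ⟨b, y⟩
  obtain ⟨y, rfl⟩ := Submodule.Quotient.mk_surjective _ y
  have h3 : ((b, Submodule.Quotient.mk y) : YN D) =
      b • ((1, 0) : YN D) + y • ((0, Submodule.Quotient.mk 1) : YN D) := by
    refine Prod.ext ?_ ?_
    · simp
    · change (Submodule.Quotient.mk y : YM D) = b • (0 : YM D) + y • Submodule.Quotient.mk 1
      rw [smul_zero, zero_add, ← Submodule.Quotient.mk_smul, smul_eq_mul, mul_one]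
  rw [h3, map_add, map_add, map_smul, map_smul, map_smul, map_smul, h1, h2]

theorem emb_injective (D : YData K B m) : Function.Injective (emb D) := by
  intro a a' h
  exact end_ext D a a' (congrArg Prod.fst h) (congrArg Prod.snd h)

/-- the endomorphism with given values on the generators -/
def mkEnd (D : YData K B m) (n n' : YN D) (h : D.x 1 • n' = 0) : YA D :=
  (LinearMap.toSpanSingleton B (YN D) n).coprod
    (Submodule.liftQ (Submodule.span B {D.x 1}) (LinearMap.toSpanSingleton B (YN D) n') (by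
      rw [Submodule.span_le]
      rintro y hy
      rw [Set.mem_singleton_iff] at hy
      subst hy
      exact h))

theorem emb_mkEnd (D : YData K B m) (n n' : YN D) (h : D.x 1 • n' = 0) :
    emb D (mkEnd D n n' h) = (n, n') := by
  refine Prod.ext ?_ ?_
  · change (mkEnd D n n' h) (1, 0) = n
    unfold mkEnd
    rw [LinearMap.coprod_apply, map_zero, add_zero]
    exact one_smul B n
  · change (LinearMap.toSpanSingleton B (YN D) n) 0 +
      (LinearMap.toSpanSingleton B (YN D) n') 1 = n'
    rw [LinearMap.toSpanSingleton_apply, LinearMap.toSpanSingleton_apply, one_smul, zero_smul,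
      zero_add]

theorem emb_exact (D : YData K B m) (p : YN D × YN D) :
    D.x 1 • p.2 = 0 ↔ ∃ a, emb D a = p := by
  constructor
  · intro h
    exact ⟨mkEnd D p.1 p.2 h, emb_mkEnd D p.1 p.2 h⟩
  · rintro ⟨a, rfl⟩
    change D.x 1 • a ((0, Submodule.Quotient.mk 1) : YN D) = 0
    rw [← map_smul]
    have : D.x 1 • ((0, Submodule.Quotient.mk 1) : YN D) = 0 := by
      refine Prod.ext ?_ ?_
      · simp
      · change D.x 1 • (Submodule.Quotient.mk 1 : YM D) = 0
        rw [← Submodule.Quotient.mk_smul, smul_eq_mul, mul_one]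
        exact (mk_eq_zero' D _).2 ⟨1, by rw [one_mul]⟩
    rw [this, map_zero]

theorem mul_exact (D : YData K B m) (j : ℕ) (h1 : 1 ≤ j) (h2 : j < m) (n : YN D) :
    D.x (j + 1) • n = 0 ↔ ∃ n' : YN D, D.x j • n' = n := by
  constructor
  · intro h
    obtain ⟨b, y⟩ := n
    obtain ⟨y, rfl⟩ := Submodule.Quotient.mk_surjective _ y
    have h3 : D.x (j + 1) * b = 0 := congrArg Prod.fst h
    have h4 : (Submodule.Quotient.mk (D.x (j + 1) * y) : YM D) = 0 := congrArg Prod.snd h
    obtain ⟨c, rfl⟩ := (D.rann j b).1 h3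
    obtain ⟨u, v, huv⟩ := D.exM j h1 h2 y ((mk_eq_zero' D _).1 h4)
    refine ⟨(c, Submodule.Quotient.mk u), ?_⟩
    refine Prod.ext rfl ?_
    change (Submodule.Quotient.mk (D.x j * u) : YM D) = Submodule.Quotient.mk y
    rw [eq_comm, ← sub_eq_zero, ← Submodule.Quotient.mk_sub]
    exact (mk_eq_zero' D _).2 ⟨v, by rw [huv]; abel⟩
  · rintro ⟨n', rfl⟩
    rw [smul_smul, x_mul_x, zero_smul]

theorem stmtA2 (hA1a : StmtA1a) : StmtA2 := by
  intro K _ B _ _ m D hm H
  obtain ⟨hP, hI⟩ := hA1a D
  have hPP : Module.Projective (YA D) (YN D × YN D) := inferInstance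
  have hII : Module.Injective (YA D) (YN D × YN D) := injective_prod hI hI
  -- the modules `x_j N`
  let R : ℕ → ModuleCat.{0} (YA D) := fun j => ModuleCat.of (YA D) (LinearMap.range (mulN D (D.x j)))
  have c0 : Cod (YA D) m (R 1) := by
    refine Cod.indep (J := ModuleCat.of (YA D) (YN D × YN D)) (DomDimGE.cod H) (emb D)
      ((mulN D (D.x 1)).rangeRestrict ∘ₗ LinearMap.snd (YA D) (YN D) (YN D)) (emb_injective D)
      ?_ ?_ hPP hII
    · intro p
      have := emb_exact D p
      constructor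
      · intro h
        exact this.1 (congrArg Subtype.val h)
      · intro h
        exact Subtype.ext (this.2 h)
    · exact (mulN D (D.x 1)).surjective_rangeRestrict.comp Prod.snd_surjective
  have c1 : ∀ j k, j + 1 + k = m → Cod (YA D) (k + 1) (R (j + 1)) := by
    intro j
    induction j with
    | zero =>
      intro k hk
      have : k + 1 = m := by omega
      rw [this]
      exact c0
    | succ j ih =>
      intro k hk
      refine Cod.indep (J := ModuleCat.of (YA D) (YN D)) (ih (k + 1) (by omega))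
        (LinearMap.range (mulN D (D.x (j + 1)))).subtype
        (mulN D (D.x (j + 1 + 1))).rangeRestrict Subtype.val_injective ?_
        (mulN D (D.x (j + 1 + 1))).surjective_rangeRestrict hP hI
      intro n
      have := mul_exact D (j + 1) (by omega) (by omega) n
      constructor
      · intro h
        obtain ⟨n', h'⟩ := this.1 (congrArg Subtype.val h)
        exact ⟨⟨n, n', h'⟩, rfl⟩
      · rintro ⟨⟨_, n', rfl⟩, rfl⟩
        exact Subtype.ext (this.2 ⟨n', rfl⟩)
  obtain ⟨m, rfl⟩ : ∃ k, m = k + 1 := ⟨m - 1, by omega⟩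
  obtain ⟨P, f, hf, hPr⟩ : Cod (YA D) 0
      (ModuleCat.of (YA D) (YN D ⧸ LinearMap.range (mulN D (D.x (m + 1))))) := by
    refine Cod.indep (J := ModuleCat.of (YA D) (YN D)) (c1 m 0 (by omega))
      (LinearMap.range (mulN D (D.x (m + 1)))).subtype
      (LinearMap.range (mulN D (D.x (m + 1)))).mkQ Subtype.val_injective ?_
      (Submodule.mkQ_surjective _) hP hI
    intro n
    constructor
    · intro h
      exact ⟨⟨n, (Submodule.Quotient.mk_eq_zero _).1 h⟩, rfl⟩
    · rintro ⟨n', rfl⟩
      exact (Submodule.Quotient.mk_eq_zero _).2 n'.2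
  obtain ⟨y, ⟨c, hc⟩, hy⟩ := D.nex
  have hn : D.x (m + 1 + 1) • ((0, Submodule.Quotient.mk y) : YN D) = 0 := by
    refine Prod.ext ?_ ?_
    · exact smul_zero _
    · exact (mk_eq_zero' D _).2 ⟨c, hc⟩
  have ht : f (Submodule.Quotient.mk ((0, Submodule.Quotient.mk y) : YN D)) = 0 := by
    refine proj_zero D P hPr _ fun a => ?_
    rw [← map_smul, ← Submodule.Quotient.mk_smul]
    have h1 : D.x (m + 1 + 1) * (a ((0, Submodule.Quotient.mk y) : YN D)).1 = 0 := by
      have := congrArg Prod.fst (map_smul a (D.x (m + 1 + 1)) ((0, Submodule.Quotient.mk y) : YN D))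
      rw [hn, map_zero] at this
      exact this.symm
    obtain ⟨b, hb⟩ := (D.rann _ _).1 h1
    have h2 : (prB D * a) • ((0, Submodule.Quotient.mk y) : YN D) ∈
        LinearMap.range (mulN D (D.x (m + 1))) := by
      refine ⟨(b, 0), ?_⟩
      rw [mulN_apply]
      refine Prod.ext ?_ ?_
      · exact hb.symm
      · exact smul_zero _
    rw [(Submodule.Quotient.mk_eq_zero _).2 h2]
    exact map_zero f
  have h3 : (Submodule.Quotient.mk ((0, Submodule.Quotient.mk y) : YN D) :
      YN D ⧸ LinearMap.range (mulN D (D.x (m + 1)))) = 0 := hf (ht.trans (map_zero f).symm)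
  obtain ⟨⟨b, u⟩, h4⟩ := (Submodule.Quotient.mk_eq_zero _).1 h3
  obtain ⟨u, rfl⟩ := Submodule.Quotient.mk_surjective _ u
  have h5 : (Submodule.Quotient.mk (D.x (m + 1) * u) : YM D) = Submodule.Quotient.mk y :=
    congrArg Prod.snd h4
  rw [eq_comm, ← sub_eq_zero, ← Submodule.Quotient.mk_sub, mk_eq_zero'] at h5
  obtain ⟨v, hv⟩ := h5
  exact hy ⟨u, v, by rw [← hv]; abel⟩

end Y

end Pool.Agent.Run7.H229
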