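import Pool.Agent.Run7.h229.Iface

/-!
# Piece A3: the algebra `A = End_B (B × M)` has exactly two simple modules
-/

set_option autoImplicit false

namespace Pool.Agent.Run7.H229

open CategoryTheory

section General

variable {A : Type} [Ring A] {K : Type} [Field K]

/-- the one-dimensional module of a character -/
def Chr (_ : A →+* K) : Type := K

instance (π : A →+* K) : AddCommGroup (Chr π) := inferInstanceAs (AddCommGroup K)

instance (π : A →+* K) : Module A (Chr π) := Module.compHom K π

/-- the identity -/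
def toC (π : A →+* K) (c : K) : Chr π := c

/-- the identity -/
def ofC (π : A →+* K) (c : Chr π) : K := c

/-- the one-dimensional module of a character -/
def chr (π : A →+* K) : ModuleCat.{0} A := ModuleCat.of A (Chr π)

theorem chr_smul (π : A →+* K) (a : A) (x : K) : a • toC π x = toC π (π a * x) := rfl

theorem toC_inj (π : A →+* K) {x y : K} (h : toC π x = toC π y) : x = y := h

theorem toC_surj (π : A →+* K) (x : Chr π) : ∃ y, toC π y = x := ⟨x, rfl⟩

theorem toC_zero (π : A →+* K) : toC π 0 = 0 := rfl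

/-- the character as a linear map -/
def chrMap (π : A →+* K) : A →ₗ[A] Chr π where
  toFun a := toC π (π a)
  map_add' a b := map_add π a b
  map_smul' a b := by
    rw [smul_eq_mul, RingHom.id_apply, chr_smul, map_mul]

theorem chrMap_surj (π : A →+* K) (hs : Function.Surjective π) :
    Function.Surjective (chrMap π) := hs

theorem simple_iso (π : A →+* K) (hs : Function.Surjective π) (S : Type) [AddCommGroup S]
    [Module A S] [hS : IsSimpleModule A S] (hk : ∀ a, π a = 0 → ∀ s : S, a • s = 0) :
    Nonempty (S ≃ₗ[A] Chr π) := by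
  have hnt : Nontrivial S := IsSimpleModule.nontrivial A S
  obtain ⟨s, hs0⟩ := exists_ne (0 : S)
  have hf : Function.Surjective (LinearMap.toSpanSingleton A S s) :=
    IsSimpleModule.toSpanSingleton_surjective A hs0
  have hker : LinearMap.ker (LinearMap.toSpanSingleton A S s) = LinearMap.ker (chrMap π) := by
    ext a
    rw [LinearMap.mem_ker, LinearMap.mem_ker, LinearMap.toSpanSingleton_apply]
    constructor
    · intro h
      by_contra hne
      have h1 : π a ≠ 0 := hne
      obtain ⟨b, hb⟩ := hs (π a)⁻¹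
      have h2 : π (b * a - 1) = 0 := by
        rw [map_sub, map_mul, map_one, hb, inv_mul_cancel₀ h1, sub_self]
      have h3 := hk _ h2 s
      rw [sub_smul, one_smul, mul_smul, h, smul_zero, zero_sub, neg_eq_zero] at h3
      exact hs0 h3
    · intro h
      exact hk a h s
  exact ⟨((LinearMap.toSpanSingleton A S s).quotKerEquivOfSurjective hf).symm ≪≫ₗ
    (Submodule.quotEquivOfEq _ _ hker) ≪≫ₗ
    ((chrMap π).quotKerEquivOfSurjective (chrMap_surj π hs))⟩

theorem chr_simple (π : A →+* K) (hs : Function.Surjective π) : IsSimpleModule A (Chr π) := by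
  have : Nontrivial (Chr π) := inferInstanceAs (Nontrivial K)
  rw [isSimpleModule_iff_toSpanSingleton_surjective]
  refine ⟨this, fun x hx y => ?_⟩
  obtain ⟨x, rfl⟩ := toC_surj π x
  obtain ⟨y, rfl⟩ := toC_surj π y
  obtain ⟨a, ha⟩ := hs (y * x⁻¹)
  refine ⟨a, ?_⟩
  rw [LinearMap.toSpanSingleton_apply, chr_smul, ha]
  have hx' : x ≠ 0 := hx
  rw [inv_mul_cancel_right₀ hx']

theorem chr_not_iso (π π' : A →+* K) (a : A) (h1 : π a = 0) (h2 : π' a = 1)
    (h : Nonempty (Chr π ≃ₗ[A] Chr π')) : False := by
  obtain ⟨e⟩ := h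
  have h3 := map_smul e a (toC π 1)
  rw [chr_smul, h1, zero_mul, toC_zero, map_zero] at h3
  obtain ⟨y, hy⟩ := toC_surj π' (e (toC π 1))
  rw [← hy, chr_smul, h2, one_mul, hy] at h3
  have h4 : toC π 1 = toC π 0 := e.injective (by rw [toC_zero, map_zero, ← h3])
  exact one_ne_zero (toC_inj π h4)

theorem simple_cases (π π' : A →+* K) (hs : Function.Surjective π) (hs' : Function.Surjective π')
    (hn : ∀ a, π a = 0 → π' a = 0 → IsNilpotent a) (S : Type) [AddCommGroup S]
    [Module A S] [IsSimpleModule A S] :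
    Nonempty (S ≃ₗ[A] Chr π) ∨ Nonempty (S ≃ₗ[A] Chr π') := by
  have hJ : ∀ a, π a = 0 → π' a = 0 → ∀ s : S, a • s = 0 := by
    intro a h1 h2 s
    by_contra hne
    obtain ⟨b, hb⟩ := IsSimpleModule.toSpanSingleton_surjective A hne s
    rw [LinearMap.toSpanSingleton_apply, smul_smul] at hb
    obtain ⟨n, hn'⟩ := hn (b * a) (by rw [map_mul, h1, mul_zero]) (by rw [map_mul, h2, mul_zero])
    have h3 : ∀ k : ℕ, (b * a) ^ k • s = s := by
      intro k
      induction k with
      | zero => rw [pow_zero, one_smul]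
      | succ k ih => rw [pow_succ, mul_smul, hb, ih]
    have h4 := h3 n
    rw [hn', zero_smul] at h4
    exact hne (by rw [← h4, smul_zero])
  by_cases hc : ∀ b, π' b = 0 → ∀ s : S, b • s = 0
  · exact Or.inr (simple_iso π' hs' S hc)
  · push Not at hc
    obtain ⟨b, hb, s, hne⟩ := hc
    refine Or.inl (simple_iso π hs S fun a ha t => ?_)
    obtain ⟨c, rfl⟩ := IsSimpleModule.toSpanSingleton_surjective A hne t
    rw [LinearMap.toSpanSingleton_apply, smul_smul, smul_smul]
    exact hJ _ (by rw [map_mul, map_mul, ha, zero_mul, zero_mul])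
      (by rw [map_mul, hb, mul_zero]) s

end General

section Y

variable {K : Type} [Field K] {B : Type} [Ring B] [Algebra K B] {m : ℕ}

/-- the augmentation of `M` -/
def epsM (D : YData K B m) : YM D →+ K :=
  QuotientAddGroup.lift (Submodule.span B {D.x 1}).toAddSubgroup (D.ε : B →+ K) (by
    intro y hy
    obtain ⟨c, hc⟩ := Submodule.mem_span_singleton.1 hy
    change D.ε y = 0
    rw [← hc, smul_eq_mul, map_mul, D.eps_x, mul_zero])

theorem epsM_mk (D : YData K B m) (y : B) : epsM D (Submodule.Quotient.mk y) = D.ε y := rfl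

theorem epsM_smul (D : YData K B m) (b : B) (y : YM D) : epsM D (b • y) = D.ε b * epsM D y := by
  obtain ⟨y, rfl⟩ := Submodule.Quotient.mk_surjective _ y
  rw [← Submodule.Quotient.mk_smul, epsM_mk, epsM_mk, smul_eq_mul, map_mul]

/-- the generators -/
def g1 (D : YData K B m) : YN D := (1, 0)

def g2 (D : YData K B m) : YN D := (0, Submodule.Quotient.mk 1)

theorem gens (D : YData K B m) (b y : B) :
    ((b, Submodule.Quotient.mk y) : YN D) = b • g1 D + y • g2 D := by
  refine Prod.ext ?_ ?_
  · simp [g1, g2]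
  · change (Submodule.Quotient.mk y : YM D) = b • (0 : YM D) + y • Submodule.Quotient.mk 1
    rw [smul_zero, zero_add, ← Submodule.Quotient.mk_smul, smul_eq_mul, mul_one]

theorem eps_fst_g2 (D : YData K B m) (a : YA D) : D.ε (a (g2 D)).1 = 0 := by
  have h1 : D.x 1 • g2 D = 0 := by
    refine Prod.ext (mul_zero _) ?_
    change D.x 1 • (Submodule.Quotient.mk 1 : YM D) = 0
    rw [← Submodule.Quotient.mk_smul, smul_eq_mul, mul_one, Submodule.Quotient.mk_eq_zero]
    exact Submodule.mem_span_singleton_self _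
  have h2 := congrArg Prod.fst (map_smul a (D.x 1) (g2 D))
  rw [h1, map_zero] at h2
  obtain ⟨c, hc⟩ := (D.rann 0 (a (g2 D)).1).1 h2.symm
  rw [hc, map_mul, D.eps_x, zero_mul]

theorem F1 (D : YData K B m) (a : YA D) (n : YN D) :
    D.ε (a n).1 = D.ε (a (g1 D)).1 * D.ε n.1 := by
  obtain ⟨b, y⟩ := n
  obtain ⟨y, rfl⟩ := Submodule.Quotient.mk_surjective _ y
  rw [gens, map_add, map_smul, map_smul, Prod.fst_add, Prod.smul_fst, Prod.smul_fst, map_add,
    smul_eq_mul, smul_eq_mul, map_mul, map_mul, eps_fst_g2, mul_zero, add_zero]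
  have : (b • g1 D + y • g2 D).1 = b := by rw [← gens]
  rw [this, mul_comm]

theorem F2 (D : YData K B m) (a : YA D) (n : YN D) (h : D.ε n.1 = 0) :
    epsM D (a n).2 = epsM D (a (g2 D)).2 * epsM D n.2 := by
  obtain ⟨b, y⟩ := n
  obtain ⟨y, rfl⟩ := Submodule.Quotient.mk_surjective _ y
  have h' : D.ε b = 0 := h
  rw [gens, map_add, map_smul, map_smul, Prod.snd_add, Prod.smul_snd, Prod.smul_snd, map_add,
    epsM_smul, epsM_smul, h', zero_mul, zero_add]
  have : (b • g1 D + y • g2 D).2 = Submodule.Quotient.mk y := by rw [← gens]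
  rw [this, epsM_mk, mul_comm]

theorem eps_g1 (D : YData K B m) : D.ε (g1 D).1 = 1 := map_one _

theorem epsM_g2 (D : YData K B m) : epsM D (g2 D).2 = 1 := by
  change epsM D (Submodule.Quotient.mk 1) = 1
  rw [epsM_mk, map_one]

/-- the first character -/
def pi1 (D : YData K B m) : YA D →+* K where
  toFun a := D.ε (a (g1 D)).1
  map_one' := eps_g1 D
  map_zero' := map_zero _
  map_mul' a b := F1 D a (b (g1 D))
  map_add' a b := by
    rw [LinearMap.add_apply, Prod.fst_add, map_add]

/-- the second character -/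
def pi2 (D : YData K B m) : YA D →+* K where
  toFun a := epsM D (a (g2 D)).2
  map_one' := epsM_g2 D
  map_zero' := map_zero _
  map_mul' a b := F2 D a (b (g2 D)) (eps_fst_g2 D b)
  map_add' a b := by
    rw [LinearMap.add_apply, Prod.snd_add, map_add]

theorem pi1_apply (D : YData K B m) (a : YA D) : pi1 D a = D.ε (a (g1 D)).1 := rfl

theorem pi2_apply (D : YData K B m) (a : YA D) : pi2 D a = epsM D (a (g2 D)).2 := rfl

theorem nil (D : YData K B m) (a : YA D) (h1 : pi1 D a = 0) (h2 : pi2 D a = 0) :
    IsNilpotent a := by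
  obtain ⟨n, hn⟩ := D.nilp
  -- the square of `a` maps `N` to `rad B • N`
  have hsq : ∀ w : YN D, ∃ b y : B, D.ε b = 0 ∧ D.ε y = 0 ∧ a (a w) = b • g1 D + y • g2 D := by
    intro w
    have e1 : ∀ v : YN D, D.ε (a v).1 = 0 := by
      intro v
      rw [F1, ← pi1_apply, h1, zero_mul]
    have e2 : epsM D (a (a w)).2 = 0 := by
      rw [F2 D a (a w) (e1 w), ← pi2_apply, h2, zero_mul]
    obtain ⟨y, hy⟩ := Submodule.Quotient.mk_surjective _ (a (a w)).2
    refine ⟨(a (a w)).1, y, e1 _, ?_, ?_⟩
    · rw [← epsM_mk, hy, e2]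
    · rw [← gens, hy]
  have key : ∀ k : ℕ, ∀ l : List B, l.length + k = n → (∀ b ∈ l, D.ε b = 0) → ∀ w : YN D,
      l.prod • (((a * a) ^ k) w) = 0 := by
    intro k
    induction k with
    | zero =>
      intro l hl h0 w
      rw [hn l hl h0, zero_smul]
    | succ k ih =>
      intro l hl h0 w
      obtain ⟨b, y, hb, hy, e⟩ := hsq w
      have e' : ((a * a) ^ (k + 1)) w = ((a * a) ^ k) (a (a w)) := by
        rw [pow_succ]
        rfl
      rw [e', e, map_add, map_smul, map_smul, smul_add, smul_smul, smul_smul]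
      have f1 := ih (l ++ [b]) (by rw [List.length_append, List.length_singleton]; omega)
        (by
          intro c hc
          rcases List.mem_append.1 hc with hc | hc
          · exact h0 c hc
          · rw [List.mem_singleton.1 hc]; exact hb) (g1 D)
      have f2 := ih (l ++ [y]) (by rw [List.length_append, List.length_singleton]; omega)
        (by
          intro c hc
          rcases List.mem_append.1 hc with hc | hc
          · exact h0 c hc
          · rw [List.mem_singleton.1 hc]; exact hy) (g2 D)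
      rw [List.prod_append, List.prod_singleton] at f1 f2
      rw [f1, f2, add_zero]
  refine ⟨2 * n, ?_⟩
  refine LinearMap.ext fun w => ?_
  have h3 := key n [] (by simp) (by simp) w
  rw [List.prod_nil, one_smul] at h3
  rw [pow_mul, pow_two]
  exact h3

/-- projections to the two summands -/
def q1 (D : YData K B m) : YA D := LinearMap.inl B B (YM D) ∘ₗ LinearMap.fst B B (YM D)

def q2 (D : YData K B m) : YA D := LinearMap.inr B B (YM D) ∘ₗ LinearMap.snd B B (YM D)

theorem pi1_q1 (D : YData K B m) : pi1 D (q1 D) = 1 := map_one D.ε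

theorem pi2_q1 (D : YData K B m) : pi2 D (q1 D) = 0 := map_zero (epsM D)

theorem pi1_q2 (D : YData K B m) : pi1 D (q2 D) = 0 := map_zero D.ε

theorem pi2_q2 (D : YData K B m) : pi2 D (q2 D) = 1 := epsM_g2 D

theorem pi1_surj (D : YData K B m) : Function.Surjective (pi1 D) := by
  intro c
  refine ⟨LinearMap.inl B B (YM D) ∘ₗ LinearMap.toSpanSingleton B B (algebraMap K B c) ∘ₗ
    LinearMap.fst B B (YM D), ?_⟩
  rw [pi1_apply]
  change D.ε ((LinearMap.toSpanSingleton B B (algebraMap K B c)) 1) = c
  rw [LinearMap.toSpanSingleton_apply, one_smul, AlgHom.commutes]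
  rfl

theorem pi2_surj (D : YData K B m) : Function.Surjective (pi2 D) := by
  intro c
  refine ⟨LinearMap.inr B B (YM D) ∘ₗ
    (Submodule.liftQ (Submodule.span B {D.x 1})
      (LinearMap.toSpanSingleton B (YM D) (Submodule.Quotient.mk (algebraMap K B c))) (by
      rw [Submodule.span_le]
      rintro y hy
      rw [Set.mem_singleton_iff] at hy
      subst hy
      change LinearMap.toSpanSingleton B (YM D) _ (D.x 1) = 0
      rw [LinearMap.toSpanSingleton_apply, ← Submodule.Quotient.mk_smul,
        Submodule.Quotient.mk_eq_zero]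
      rw [smul_eq_mul, ← Algebra.commutes, ← smul_eq_mul]
      exact Submodule.smul_mem _ _ (Submodule.mem_span_singleton_self _))) ∘ₗ
    LinearMap.snd B B (YM D), ?_⟩
  rw [pi2_apply]
  change epsM D ((LinearMap.toSpanSingleton B (YM D)
    (Submodule.Quotient.mk (algebraMap K B c))) 1) = c
  rw [LinearMap.toSpanSingleton_apply, one_smul, epsM_mk, AlgHom.commutes]
  rfl

theorem stmtA3 : StmtA3 := by
  intro K _ B _ _ m D
  refine ⟨![chr (pi1 D), chr (pi2 D)], ?_, ?_, ?_⟩
  · intro i
    fin_cases i
    · exact chr_simple (pi1 D) (pi1_surj D)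
    · exact chr_simple (pi2 D) (pi2_surj D)
  · intro i j h
    fin_cases i <;> fin_cases j
    · rfl
    · exact (chr_not_iso (pi1 D) (pi2 D) (q2 D) (pi1_q2 D) (pi2_q2 D) h).elim
    · exact (chr_not_iso (pi2 D) (pi1 D) (q1 D) (pi2_q1 D) (pi1_q1 D) h).elim
    · rfl
  · intro S hS
    rcases simple_cases (pi1 D) (pi2 D) (pi1_surj D) (pi2_surj D) (nil D) S with h | h
    · exact ⟨0, h⟩
    · exact ⟨1, h⟩

end Y

end Pool.Agent.Run7.H229
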