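import Pool.Agent.Run7.h229.Iface

/-!
# Piece B1: the algebras `E`
-/

set_option autoImplicit false
set_option linter.unusedSectionVars false

namespace Pool.Agent.Run7.H229

namespace B1

open Finset MvPolynomial

variable (d : ℕ)

/-- the polynomial ring -/
abbrev PP : Type := MvPolynomial (ZMod d) (ZMod 2)

/-- exponents in the box -/
def Box (p : ZMod d →₀ ℕ) : Prop := ∀ l, p l ≤ d

/-- the ideal -/
def JJ : Ideal (PP d) where
  carrier := {f | ∀ p, Box d p → coeff p f = 0}
  add_mem' := fun {f g} hf hg p hp => by rw [coeff_add, hf p hp, hg p hp, add_zero]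
  zero_mem' := fun p _ => coeff_zero p
  smul_mem' := fun c f hf p hp => by
    classical
    rw [smul_eq_mul, coeff_mul]
    refine sum_eq_zero fun x hx => ?_
    rw [HasAntidiagonal.mem_antidiagonal] at hx
    rw [hf x.2, mul_zero]
    intro l
    have : x.2 l ≤ p l := by
      rw [← hx]
      simp
    exact this.trans (hp l)

theorem mem_JJ (f : PP d) : f ∈ JJ d ↔ ∀ p, Box d p → coeff p f = 0 := Iff.rfl

theorem monomial_mem (p : ZMod d →₀ ℕ) (hp : ¬ Box d p) (c : ZMod 2) :
    monomial p c ∈ JJ d := by
  classical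
  intro r hr
  rw [coeff_monomial, if_neg]
  rintro rfl
  exact hp hr

variable {d}

/-- linear maps preserving `J` -/
theorem lin_mem (L : PP d →ₗ[ZMod 2] PP d)
    (hL : ∀ p c, ¬ Box d p → L (monomial p c) ∈ JJ d) (f : PP d) (hf : f ∈ JJ d) :
    L f ∈ JJ d := by
  rw [← support_sum_monomial_coeff f, map_sum]
  refine Ideal.sum_mem _ fun p hp => hL p _ ?_
  intro hb
  exact (MvPolynomial.mem_support_iff.1 hp) (hf p hb)

variable (d)

/-- the algebra -/
abbrev EE : Type := PP d ⧸ JJ d

variable {d}

/-- descent of linear maps -/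
noncomputable def dn (L : PP d →ₗ[ZMod 2] PP d)
    (hL : ∀ p c, ¬ Box d p → L (monomial p c) ∈ JJ d) : EE d →ₗ[ZMod 2] EE d :=
  (((JJ d).restrictScalars (ZMod 2)).mapQ ((JJ d).restrictScalars (ZMod 2)) L
    (fun f hf => lin_mem L hL f hf))

theorem dn_mk (L : PP d →ₗ[ZMod 2] PP d)
    (hL : ∀ p c, ¬ Box d p → L (monomial p c) ∈ JJ d) (f : PP d) :
    dn L hL (Ideal.Quotient.mk (JJ d) f) = Ideal.Quotient.mk (JJ d) (L f) := rfl

theorem two_mul_zero (c : ZMod 2) : c + c = 0 := CharTwo.add_self_eq_zero c

theorem padd_self (f : PP d) : f + f = 0 := CharTwo.add_self_eq_zero f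

theorem two_zero (a : EE d) : a + a = 0 := by
  obtain ⟨f, rfl⟩ := Ideal.Quotient.mk_surjective a
  rw [← map_add, padd_self, map_zero]

/-- linear maps agree if they agree on monomials -/
theorem lin_ext {M : Type} [AddCommGroup M] [Module (ZMod 2) M] {L L' : PP d →ₗ[ZMod 2] M}
    (h : ∀ p, L (monomial p 1) = L' (monomial p 1)) : L = L' := by
  refine LinearMap.ext fun f => ?_
  rw [← support_sum_monomial_coeff f, map_sum, map_sum]
  refine sum_congr rfl fun p _ => ?_
  have : monomial p (coeff p f) = coeff p f • (monomial p (1 : ZMod 2)) := by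
    rw [smul_monomial, smul_eq_mul, mul_one]
  rw [this, map_smul, map_smul, h]

/-- the basis vector -/
noncomputable abbrev sg (l : ZMod d) : ZMod d →₀ ℕ := Finsupp.single l 1

section ops

variable [NeZero d]

/-- the derivation `∑ X_l ^ 2 ∂_l` -/
noncomputable def del : Derivation (ZMod 2) (PP d) (PP d) :=
  mkDerivation (ZMod 2) fun l => X l * X l

theorem del_X (l : ZMod d) : del (X l : PP d) = X l * X l := mkDerivation_X _ _ _

theorem der_sum (s : Finset (ZMod d)) (D : ZMod d → Derivation (ZMod 2) (PP d) (PP d)) (f : PP d) :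
    (∑ l ∈ s, D l) f = ∑ l ∈ s, D l f := by
  classical
  induction s using Finset.induction_on with
  | empty => simp
  | insert a s ha ih => rw [sum_insert ha, sum_insert ha, Derivation.add_apply, ih]

theorem del_eq (f : PP d) : del f = ∑ l, (X l * X l) * pderiv l f := by
  have h : (del : Derivation (ZMod 2) (PP d) (PP d)) =
      ∑ l, (X l * X l : PP d) • (pderiv l : Derivation (ZMod 2) (PP d) (PP d)) := by
    apply derivation_ext
    intro i
    rw [del_X, der_sum, sum_eq_single i]
    · simp
    · intro j _ hj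
      simp [pderiv_X_of_ne hj.symm]
    · intro h
      exact absurd (mem_univ i) h
  rw [h, der_sum]
  rfl

theorem X2_monomial (l : ZMod d) (p : ZMod d →₀ ℕ) (c : ZMod 2) :
    (X l * X l : PP d) * pderiv l (monomial p c) = monomial (p + sg l) (c * p l) := by
  rw [pderiv_monomial]
  rcases Nat.eq_zero_or_pos (p l) with h | h
  · simp [h]
  · have h1 : (X l * X l : PP d) = monomial (sg l + sg l) 1 := by
      rw [X, monomial_mul, one_mul]
    rw [h1, monomial_mul, one_mul]
    congr 2
    ext m
    simp only [Finsupp.add_apply, Finsupp.tsub_apply]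
    by_cases hm : m = l
    · subst hm
      simp only [Finsupp.single_eq_same]
      omega
    · simp [Finsupp.single_eq_of_ne hm]

theorem del_monomial (p : ZMod d →₀ ℕ) (c : ZMod 2) :
    del (monomial p c : PP d) = ∑ l, monomial (p + sg l) (c * p l) := by
  rw [del_eq]
  exact sum_congr rfl fun l _ => X2_monomial l p c

theorem not_box_add {p r : ZMod d →₀ ℕ} (h : ¬ Box d p) : ¬ Box d (p + r) := by
  intro h1
  apply h
  intro l
  have := h1 l
  rw [Finsupp.add_apply] at this
  omega

theorem del_pres (p : ZMod d →₀ ℕ) (c : ZMod 2) (h : ¬ Box d p) :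
    (del : Derivation (ZMod 2) (PP d) (PP d)).toLinearMap (monomial p c) ∈ JJ d := by
  change del (monomial p c) ∈ JJ d
  rw [del_monomial]
  exact Ideal.sum_mem _ fun l _ => monomial_mem d _ (not_box_add h) _

/-- `δ` on `E` -/
noncomputable def dE : EE d →ₗ[ZMod 2] EE d := dn _ del_pres

theorem dE_mk (f : PP d) : dE (Ideal.Quotient.mk (JJ d) f) = Ideal.Quotient.mk (JJ d) (del f) := rfl

theorem pd_pres (hd : Odd d) (l : ZMod d) (p : ZMod d →₀ ℕ) (c : ZMod 2) (h : ¬ Box d p) :
    (pderiv l : Derivation (ZMod 2) (PP d) (PP d)).toLinearMap (monomial p c) ∈ JJ d := by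
  change pderiv l (monomial p c) ∈ JJ d
  rw [pderiv_monomial]
  by_cases h1 : Box d (p - sg l)
  · have h2 : p l = d + 1 := by
      have h3 : ∀ m, m ≠ l → p m ≤ d := by
        intro m hm
        have := h1 m
        rw [Finsupp.tsub_apply, Finsupp.single_eq_of_ne hm] at this
        omega
      have h4 := h1 l
      rw [Finsupp.tsub_apply, Finsupp.single_eq_same] at h4
      have h5 : ¬ p l ≤ d := by
        intro h6
        apply h
        intro m
        by_cases hm : m = l
        · rw [hm]; exact h6
        · exact h3 m hm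
      omega
    have h3 : ((p l : ℕ) : ZMod 2) = 0 := by
      rw [h2, ZMod.natCast_eq_zero_iff]
      exact (Odd.add_one hd).two_dvd
    rw [h3, mul_zero, map_zero]
    exact Ideal.zero_mem _
  · exact monomial_mem d _ h1 _

/-- `∂_l` on `E` -/
noncomputable def pE (hd : Odd d) (l : ZMod d) : EE d →ₗ[ZMod 2] EE d := dn _ (pd_pres hd l)

theorem pE_mk (hd : Odd d) (l : ZMod d) (f : PP d) :
    pE hd l (Ideal.Quotient.mk (JJ d) f) = Ideal.Quotient.mk (JJ d) (pderiv l f) := rfl

theorem hc_pres (n : ℕ) (p : ZMod d →₀ ℕ) (c : ZMod 2) (h : ¬ Box d p) :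
    homogeneousComponent n (monomial p c) ∈ JJ d := by
  intro r hr
  rw [coeff_homogeneousComponent]
  split_ifs
  · exact monomial_mem d p h c r hr
  · rfl

/-- `π_n` on `E` -/
noncomputable def hE (n : ℕ) : EE d →ₗ[ZMod 2] EE d := dn _ (hc_pres n)

theorem hE_mk (n : ℕ) (f : PP d) :
    hE n (Ideal.Quotient.mk (JJ d) f) = Ideal.Quotient.mk (JJ d) (homogeneousComponent n f) := rfl

theorem hc_monomial (n : ℕ) (p : ZMod d →₀ ℕ) (c : ZMod 2) :
    homogeneousComponent n (monomial p c : PP d) =
      if Finsupp.degree p = n then monomial p c else 0 := by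
  rw [homogeneousComponent_of_mem (isHomogeneous_monomial c rfl)]
  by_cases h : n = Finsupp.degree p
  · rw [if_pos h, if_pos h.symm]
  · rw [if_neg h, if_neg (Ne.symm h)]

theorem hc_hc (m n : ℕ) (f : PP d) : homogeneousComponent m (homogeneousComponent n f) =
    if m = n then homogeneousComponent n f else 0 :=
  homogeneousComponent_of_mem (homogeneousComponent_mem n f)

theorem degree_sg (l : ZMod d) : Finsupp.degree (sg l) = 1 := Finsupp.degree_single l 1

theorem del_hc (n : ℕ) (f : PP d) :
    del (homogeneousComponent n f) = homogeneousComponent (n + 1) (del f) := by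
  have h : (del : Derivation (ZMod 2) (PP d) (PP d)).toLinearMap ∘ₗ homogeneousComponent n =
      homogeneousComponent (n + 1) ∘ₗ (del : Derivation (ZMod 2) (PP d) (PP d)).toLinearMap := by
    apply lin_ext
    intro p
    change del (homogeneousComponent n (monomial p 1)) =
      homogeneousComponent (n + 1) (del (monomial p 1))
    rw [hc_monomial, del_monomial, map_sum]
    have h1 : ∀ l, homogeneousComponent (n + 1) (monomial (p + sg l) ((1 : ZMod 2) * p l) : PP d) =
        if Finsupp.degree p = n then monomial (p + sg l) ((1 : ZMod 2) * p l) else 0 := by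
      intro l
      rw [hc_monomial, map_add, degree_sg]
      by_cases h : Finsupp.degree p = n
      · rw [if_pos h, if_pos (by omega)]
      · rw [if_neg h, if_neg (by omega)]
    rw [sum_congr rfl fun l _ => h1 l]
    split_ifs
    · rw [del_monomial]
    · rw [map_zero, sum_const_zero]
  exact LinearMap.congr_fun h f

theorem pd_hc (l : ZMod d) (n : ℕ) (f : PP d) :
    pderiv l (homogeneousComponent (n + 1) f) = homogeneousComponent n (pderiv l f) := by
  have h : (pderiv l : Derivation (ZMod 2) (PP d) (PP d)).toLinearMap ∘ₗ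
      homogeneousComponent (n + 1) =
      homogeneousComponent n ∘ₗ
        (pderiv l : Derivation (ZMod 2) (PP d) (PP d)).toLinearMap := by
    apply lin_ext
    intro p
    change pderiv l (homogeneousComponent (n + 1) (monomial p 1)) =
      homogeneousComponent n (pderiv l (monomial p 1))
    rw [hc_monomial, pderiv_monomial, hc_monomial]
    rcases Nat.eq_zero_or_pos (p l) with h | h
    · split_ifs
      · rw [pderiv_monomial]
      · rw [pderiv_monomial, h]; simp
      · simp [h]
      · simp
    · have h2 : Finsupp.degree p = Finsupp.degree (p - sg l) + 1 := by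
        conv_lhs => rw [← tsub_add_cancel_of_le
          (show sg l ≤ p from Finsupp.single_le_iff.2 h)]
        rw [map_add, degree_sg]
      by_cases h3 : Finsupp.degree p = n + 1
      · rw [if_pos h3, if_pos (by rw [h3] at h2; exact (Nat.succ_injective h2).symm),
          pderiv_monomial]
      · rw [if_neg h3, if_neg (fun h4 => h3 (by rw [h2, h4])), map_zero]
  exact LinearMap.congr_fun h f

theorem pd_hc_zero (l : ZMod d) (f : PP d) :
    pderiv l (homogeneousComponent 0 f) = 0 := by
  rw [homogeneousComponent_zero, pderiv_C]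

theorem del_del (f : PP d) : del (del f) = 0 := by
  induction f using MvPolynomial.induction_on with
  | C a => rw [show (C a : PP d) = algebraMap (ZMod 2) (PP d) a from rfl, Derivation.map_algebraMap,
      map_zero]
  | add p q hp hq => rw [map_add, map_add, hp, hq, add_zero]
  | mul_X p l hp =>
    have h1 : del (X l * X l : PP d) = 0 := by
      rw [Derivation.leibniz]
      exact padd_self _
    rw [Derivation.leibniz, map_add, del_X, smul_eq_mul, smul_eq_mul,
      Derivation.leibniz del p (X l * X l), h1, Derivation.leibniz del (X l) (del p), hp, del_X]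
    simp only [smul_eq_mul, mul_zero, zero_add]
    rw [mul_comm (del p) (X l * X l)]
    exact padd_self _

/-- the shift -/
noncomputable def sh (j : ZMod d) : PP d →ₐ[ZMod 2] PP d := rename (fun l => l + j)

theorem sh_X (j l : ZMod d) : sh j (X l : PP d) = X (l + j) := rename_X _ _

theorem sh_sh (j k : ZMod d) (h : j + k = 0) (f : PP d) : sh j (sh k f) = f := by
  unfold sh
  rw [rename_rename]
  have : ((fun l : ZMod d => l + j) ∘ fun l => l + k) = id := by
    funext l
    simp only [Function.comp_apply, id]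
    linear_combination h
  rw [this, rename_id_apply]

theorem coeff_sh (j : ZMod d) (f : PP d) (p : ZMod d →₀ ℕ) :
    coeff p (sh j f) = coeff (Finsupp.mapDomain (fun l => l - j) p) f := by
  have h := coeff_rename_mapDomain (fun l : ZMod d => l + j) (add_left_injective j) f
    (Finsupp.mapDomain (fun l => l - j) p)
  rw [← h]
  congr 1
  rw [← Finsupp.mapDomain_comp]
  have : ((fun l : ZMod d => l + j) ∘ fun l => l - j) = id := by
    funext l
    simp
  rw [this, Finsupp.mapDomain_id]

theorem box_map (j : ZMod d) (p : ZMod d →₀ ℕ) (h : Box d p) :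
    Box d (Finsupp.mapDomain (fun l => l - j) p) := by
  intro l
  have : l = (fun l : ZMod d => l - j) (l + j) := by simp
  rw [this, Finsupp.mapDomain_apply (sub_left_injective)]
  exact h _

theorem sh_mem (j : ZMod d) (f : PP d) (hf : f ∈ JJ d) : sh j f ∈ JJ d := by
  intro p hp
  rw [coeff_sh]
  exact hf _ (box_map j p hp)

/-- the shift on `E` -/
noncomputable def shE (j : ZMod d) : EE d →ₐ[ZMod 2] EE d :=
  Ideal.Quotient.liftₐ (JJ d) ((Ideal.Quotient.mkₐ (ZMod 2) (JJ d)).comp (sh j)) (fun f hf => by
    change Ideal.Quotient.mk (JJ d) (sh j f) = 0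
    rw [Ideal.Quotient.eq_zero_iff_mem]
    exact sh_mem j f hf)

theorem shE_mk (j : ZMod d) (f : PP d) :
    shE j (Ideal.Quotient.mk (JJ d) f) = Ideal.Quotient.mk (JJ d) (sh j f) := rfl

theorem shE_shE (j k : ZMod d) (h : j + k = 0) (a : EE d) : shE j (shE k a) = a := by
  obtain ⟨f, rfl⟩ := Ideal.Quotient.mk_surjective a
  rw [shE_mk, shE_mk, sh_sh j k h]

/-- the shift as an automorphism -/
noncomputable def sE : EE d ≃ₐ[ZMod 2] EE d :=
  AlgEquiv.ofAlgHom (shE 1) (shE (-1)) (AlgHom.ext (shE_shE _ _ (by ring)))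
    (AlgHom.ext (shE_shE _ _ (by ring)))

theorem sE_mk (f : PP d) :
    sE (Ideal.Quotient.mk (JJ d) f) = Ideal.Quotient.mk (JJ d) (sh 1 f) := rfl

theorem del_sh (j : ZMod d) (f : PP d) : del (sh j f) = sh j (del f) := by
  induction f using MvPolynomial.induction_on with
  | C a => rw [show (C a : PP d) = algebraMap (ZMod 2) (PP d) a from rfl, Derivation.map_algebraMap,
      AlgHom.commutes, Derivation.map_algebraMap, map_zero]
  | add p q hp hq => simp only [map_add, hp, hq]
  | mul_X p l hp =>
    rw [map_mul, Derivation.leibniz, hp, Derivation.leibniz, sh_X, del_X, del_X]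
    simp only [smul_eq_mul, map_add, map_mul, sh_X]

theorem sh_hc (j : ZMod d) (n : ℕ) (f : PP d) :
    sh j (homogeneousComponent n f) = homogeneousComponent n (sh j f) := by
  ext p
  rw [coeff_sh, coeff_homogeneousComponent, coeff_homogeneousComponent, coeff_sh]
  have : Finsupp.degree (Finsupp.mapDomain (fun l => l - j) p) = Finsupp.degree p := by
    rw [Finsupp.degree_eq_sum, Finsupp.degree_eq_sum]
    rw [← Equiv.sum_comp (Equiv.subRight j)]
    refine sum_congr rfl fun l _ => ?_
    change Finsupp.mapDomain (fun l => l - j) p ((fun l => l - j) l) = _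
    rw [Finsupp.mapDomain_apply (sub_left_injective)]
  rw [this]

/-! ### the homotopy `∂_l` -/

theorem pd_del (l : ZMod d) (f : PP d) : pderiv l (del f) + del (pderiv l f) = 0 := by
  induction f using MvPolynomial.induction_on with
  | C a => rw [show (C a : PP d) = algebraMap (ZMod 2) (PP d) a from rfl, Derivation.map_algebraMap,
      map_zero, Derivation.map_algebraMap, map_zero, add_zero]
  | add p q hp hq =>
    rw [map_add, map_add, map_add, map_add]
    calc _ = (pderiv l (del p) + del (pderiv l p)) + (pderiv l (del q) + del (pderiv l q)) := by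
          abel
      _ = 0 := by rw [hp, hq, add_zero]
  | mul_X p m hp =>
    have h1 : del (pderiv l (X m : PP d)) = 0 := by
      by_cases h : m = l
      · rw [h, pderiv_X_self]
        exact Derivation.map_one_eq_zero _
      · rw [pderiv_X_of_ne h, map_zero]
    have h2 : pderiv l (X m * X m : PP d) = 0 := by
      rw [Derivation.leibniz]
      exact padd_self _
    rw [Derivation.leibniz, map_add, del_X, smul_eq_mul, smul_eq_mul,
      Derivation.leibniz (pderiv l) p (X m * X m), h2, Derivation.leibniz (pderiv l) (X m) (del p),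
      Derivation.leibniz (pderiv l) p (X m), map_add, smul_eq_mul, smul_eq_mul, smul_eq_mul,
      smul_eq_mul, smul_eq_mul, smul_eq_mul,
      Derivation.leibniz del p (pderiv l (X m)),
      h1, Derivation.leibniz del (X m) (pderiv l p), del_X]
    simp only [smul_eq_mul, mul_zero, zero_add]
    have h3 : del (pderiv l p) = pderiv l (del p) := by
      have := padd_self (pderiv l (del p))
      calc del (pderiv l p) = (pderiv l (del p) + del (pderiv l p)) + pderiv l (del p) := by
            linear_combination -this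
        _ = _ := by rw [hp, zero_add]
    rw [h3]
    have e1 := padd_self (X m * X m * pderiv l p)
    have e2 := padd_self (X m * pderiv l (del p))
    have e3 := padd_self (del p * pderiv l (X m))
    linear_combination e1 + e2 + e3

theorem htp_P (l m : ZMod d) (h : l ≠ m) (f : PP d) :
    pderiv l (del f + (X l + X m) * f) + (del (pderiv l f) + (X l + X m) * pderiv l f) = f := by
  rw [map_add, Derivation.leibniz, map_add, pderiv_X_self, pderiv_X_of_ne (Ne.symm h)]
  simp only [smul_eq_mul]
  have e1 := pd_del l f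
  have e2 := padd_self ((X l + X m) * pderiv l f)
  linear_combination e1 + e2

/-! ### the homotopies `h_l` and the projections `r_l` -/

/-- a linear map given on monomials -/
noncomputable def onMon (g : (ZMod d →₀ ℕ) → PP d) : PP d →ₗ[ZMod 2] PP d :=
  (basisMonomials (ZMod d) (ZMod 2)).constr (ZMod 2) g

theorem onMon_monomial (g : (ZMod d →₀ ℕ) → PP d) (p : ZMod d →₀ ℕ) (c : ZMod 2) :
    onMon g (monomial p c) = c • g p := by
  have h : monomial p c = c • (basisMonomials (ZMod d) (ZMod 2)) p := by
    rw [coe_basisMonomials, smul_monomial, smul_eq_mul, mul_one]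
  rw [h, map_smul]
  unfold onMon
  rw [Module.Basis.constr_basis]

open Classical in
/-- the homotopy -/
noncomputable def hh (l : ZMod d) : PP d →ₗ[ZMod 2] PP d :=
  onMon fun p => if Even (p l) ∧ 0 < p l ∧ p l ≤ d then monomial (p - sg l) 1 else 0

open Classical in
/-- the projection -/
noncomputable def rr (l : ZMod d) : PP d →ₗ[ZMod 2] PP d :=
  onMon fun p => if p l = 0 ∨ p l = d then monomial p 1 else 0

theorem hh_pres (l : ZMod d) (p : ZMod d →₀ ℕ) (c : ZMod 2) (h : ¬ Box d p) :
    hh l (monomial p c) ∈ JJ d := by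
  unfold hh
  rw [onMon_monomial]
  split_ifs with h1
  · rw [smul_monomial]
    apply monomial_mem
    intro h2
    apply h
    intro m
    by_cases hm : m = l
    · rw [hm]
      exact h1.2.2
    · have := h2 m
      rw [Finsupp.tsub_apply, Finsupp.single_eq_of_ne hm] at this
      omega
  · rw [smul_zero]
    exact Ideal.zero_mem _

theorem rr_pres (l : ZMod d) (p : ZMod d →₀ ℕ) (c : ZMod 2) (h : ¬ Box d p) :
    rr l (monomial p c) ∈ JJ d := by
  unfold rr
  rw [onMon_monomial]
  split_ifs with h1
  · rw [smul_monomial]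
    exact monomial_mem d _ h _
  · rw [smul_zero]
    exact Ideal.zero_mem _

theorem natCast_two_even {n : ℕ} (h : Even n) : ((n : ℕ) : ZMod 2) = 0 := by
  rw [ZMod.natCast_eq_zero_iff]
  exact h.two_dvd

theorem natCast_two_odd {n : ℕ} (h : Odd n) : ((n : ℕ) : ZMod 2) = 1 := by
  obtain ⟨k, rfl⟩ := h
  push_cast
  have : (2 : ZMod 2) = 0 := rfl
  rw [this, zero_mul, zero_add]

theorem add_sub_sg (l m : ZMod d) (p : ZMod d →₀ ℕ) (h : 0 < p l) :
    p + sg m - sg l = p - sg l + sg m := by
  ext i
  simp only [Finsupp.add_apply, Finsupp.tsub_apply]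
  by_cases hi : i = l
  · subst hi
    simp only [Finsupp.single_eq_same]
    omega
  · rw [Finsupp.single_eq_of_ne hi]
    omega

open Classical in
theorem hom_mon (hd : Odd d) (l : ZMod d) (p : ZMod d →₀ ℕ) (hp : Box d p) :
    hh l (del (monomial p 1)) + del (hh l (monomial p 1)) + monomial p 1 +
      rr l (monomial p 1) = (0 : PP d) := by
  have h1 : ∀ m, hh l (monomial (p + sg m) ((1 : ZMod 2) * p m)) =
      (((p m : ℕ) : ZMod 2) • if Even ((p + sg m) l) ∧ 0 < (p + sg m) l ∧ (p + sg m) l ≤ d then
        monomial (p + sg m - sg l) 1 else 0 : PP d) := by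
    intro m
    unfold hh
    rw [onMon_monomial, one_mul]
  have h2 : hh l (monomial p 1) =
      (if Even (p l) ∧ 0 < p l ∧ p l ≤ d then monomial (p - sg l) 1 else 0 : PP d) := by
    unfold hh
    rw [onMon_monomial, one_smul]
  have h3 : rr l (monomial p 1) =
      (if p l = 0 ∨ p l = d then monomial p 1 else 0 : PP d) := by
    unfold rr
    rw [onMon_monomial, one_smul]
  have hne : ∀ m, m ≠ l → (p + sg m) l = p l := by
    intro m hm
    rw [Finsupp.add_apply, Finsupp.single_eq_of_ne (Ne.symm hm), add_zero]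
  have heq : (p + sg l) l = p l + 1 := by
    rw [Finsupp.add_apply, Finsupp.single_eq_same]
  have hpl : p + sg l - sg l = p := add_tsub_cancel_right _ _
  rw [del_monomial, map_sum, sum_congr rfl fun m _ => h1 m, h2, h3]
  by_cases hA : Even (p l) ∧ 0 < p l ∧ p l ≤ d
  · rw [if_pos hA, del_monomial, ← sum_add_distrib]
    have h4 : ¬ (p l = 0 ∨ p l = d) := by
      rintro (h | h)
      · omega
      · rw [h] at hA
        exact absurd hA.1 (Nat.not_even_iff_odd.2 hd)
    rw [if_neg h4, sum_eq_single l]
    · rw [natCast_two_even hA.1, zero_smul, zero_add]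
      have h5 : p - sg l + sg l = p :=
        tsub_add_cancel_of_le (Finsupp.single_le_iff.2 hA.2.1)
      have h6 : (((p - sg l) l : ℕ) : ZMod 2) = 1 := by
        rw [Finsupp.tsub_apply, Finsupp.single_eq_same]
        apply natCast_two_odd
        obtain ⟨k, hk⟩ := hA.1
        exact ⟨k - 1, by omega⟩
      rw [h5, h6, mul_one, add_zero]
      exact padd_self _
    · intro m _ hm
      rw [hne m hm, if_pos hA, smul_monomial, smul_eq_mul, mul_one, add_sub_sg l m p hA.2.1,
        Finsupp.tsub_apply, Finsupp.single_eq_of_ne hm, tsub_zero, one_mul]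
      exact padd_self _
    · intro h
      exact absurd (mem_univ l) h
  · rw [if_neg hA, map_zero, add_zero, sum_eq_single l]
    · rw [heq, hpl]
      rcases Nat.even_or_odd (p l) with he | ho
      · have h0 : p l = 0 := by
          by_contra h
          exact hA ⟨he, Nat.pos_of_ne_zero h, hp l⟩
        rw [h0, Nat.cast_zero, zero_smul, zero_add, if_pos (Or.inl rfl)]
        exact padd_self _
      · by_cases hl : p l = d
        · have : ¬ (Even (p l + 1) ∧ 0 < p l + 1 ∧ p l + 1 ≤ d) := by
            intro h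
            omega
          rw [if_neg this, smul_zero, zero_add, if_pos (Or.inr hl)]
          exact padd_self _
        · have h4 : Even (p l + 1) ∧ 0 < p l + 1 ∧ p l + 1 ≤ d := by
            refine ⟨ho.add_one, by omega, ?_⟩
            have := hp l
            omega
          have h5 : ¬ (p l = 0 ∨ p l = d) := by
            rintro (h | h)
            · rw [h] at ho
              exact absurd ho (by decide)
            · exact hl h
          rw [if_pos h4, if_neg h5, natCast_two_odd ho, one_smul, add_zero]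
          exact padd_self _
    · intro m _ hm
      rw [hne m hm, if_neg hA, smul_zero]
    · intro h
      exact absurd (mem_univ l) h

/-- `h_l` on `E` -/
noncomputable def hlE (l : ZMod d) : EE d →ₗ[ZMod 2] EE d := dn _ (hh_pres l)
/-- `r_l` on `E` -/
noncomputable def rlE (l : ZMod d) : EE d →ₗ[ZMod 2] EE d := dn _ (rr_pres l)

theorem hlE_mk (l : ZMod d) (f : PP d) :
    hlE l (Ideal.Quotient.mk (JJ d) f) = Ideal.Quotient.mk (JJ d) (hh l f) := rfl
theorem rlE_mk (l : ZMod d) (f : PP d) :
    rlE l (Ideal.Quotient.mk (JJ d) f) = Ideal.Quotient.mk (JJ d) (rr l f) := rfl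

theorem mk_monomial (p : ZMod d →₀ ℕ) (hp : ¬ Box d p) :
    Ideal.Quotient.mk (JJ d) (monomial p 1) = 0 :=
  Ideal.Quotient.eq_zero_iff_mem.2 (monomial_mem d p hp 1)

/-- linear maps out of `E` agree if they agree on the monomials in the box -/
theorem linE_ext {L L' : EE d →ₗ[ZMod 2] EE d}
    (h : ∀ p, Box d p → L (Ideal.Quotient.mk (JJ d) (monomial p 1)) =
      L' (Ideal.Quotient.mk (JJ d) (monomial p 1))) (a : EE d) : L a = L' a := by
  obtain ⟨f, rfl⟩ := Ideal.Quotient.mk_surjective a
  have := lin_ext (d := d) (L := L ∘ₗ (Ideal.Quotient.mkₐ (ZMod 2) (JJ d)).toLinearMap)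
    (L' := L' ∘ₗ (Ideal.Quotient.mkₐ (ZMod 2) (JJ d)).toLinearMap) (fun p => by
      change L (Ideal.Quotient.mk (JJ d) (monomial p 1)) =
        L' (Ideal.Quotient.mk (JJ d) (monomial p 1))
      by_cases hp : Box d p
      · exact h p hp
      · rw [mk_monomial p hp, map_zero, map_zero])
  exact LinearMap.congr_fun this f

theorem homE (hd : Odd d) (l : ZMod d) (a : EE d) :
    hlE l (dE a) + dE (hlE l a) + a + rlE l a = 0 := by
  have h := linE_ext (d := d) (L := hlE l ∘ₗ dE + dE ∘ₗ hlE l + LinearMap.id + rlE l) (L' := 0)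
    (fun p hp => by
      change hlE l (dE (Ideal.Quotient.mk (JJ d) (monomial p 1))) +
        dE (hlE l (Ideal.Quotient.mk (JJ d) (monomial p 1))) +
        Ideal.Quotient.mk (JJ d) (monomial p 1) +
        rlE l (Ideal.Quotient.mk (JJ d) (monomial p 1)) = 0
      rw [dE_mk, hlE_mk, hlE_mk, dE_mk, rlE_mk, ← map_add, ← map_add, ← map_add,
        hom_mon hd l p hp, map_zero]) a
  exact h

theorem degree_sub_sg (l : ZMod d) (p : ZMod d →₀ ℕ) (h : 0 < p l) :
    Finsupp.degree p = Finsupp.degree (p - sg l) + 1 := by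
  conv_lhs => rw [← tsub_add_cancel_of_le (show sg l ≤ p from Finsupp.single_le_iff.2 h)]
  rw [map_add, degree_sg]

theorem hh_hc (l : ZMod d) (n : ℕ) (f : PP d) :
    hh l (homogeneousComponent (n + 1) f) = homogeneousComponent n (hh l f) := by
  classical
  have h : hh l ∘ₗ homogeneousComponent (n + 1) = homogeneousComponent n ∘ₗ hh l := by
    apply lin_ext
    intro p
    change hh l (homogeneousComponent (n + 1) (monomial p 1)) =
      homogeneousComponent n (hh l (monomial p 1))
    have h2 : hh l (monomial p 1) =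
        (if Even (p l) ∧ 0 < p l ∧ p l ≤ d then monomial (p - sg l) 1 else 0 : PP d) := by
      unfold hh
      rw [onMon_monomial, one_smul]
    rw [hc_monomial, h2]
    by_cases hA : Even (p l) ∧ 0 < p l ∧ p l ≤ d
    · rw [if_pos hA, hc_monomial]
      have h3 := degree_sub_sg l p hA.2.1
      by_cases h4 : Finsupp.degree p = n + 1
      · rw [if_pos h4, if_pos (by rw [h4] at h3; exact (Nat.succ_injective h3).symm), h2, if_pos hA]
      · rw [if_neg h4, if_neg (fun h5 => h4 (by rw [h3, h5])), map_zero]
    · rw [if_neg hA, map_zero]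
      split_ifs
      · rw [h2, if_neg hA]
      · rw [map_zero]
  exact LinearMap.congr_fun h f

theorem rr_hc (l : ZMod d) (n : ℕ) (f : PP d) :
    rr l (homogeneousComponent n f) = homogeneousComponent n (rr l f) := by
  classical
  have h : rr l ∘ₗ homogeneousComponent n = homogeneousComponent n ∘ₗ rr l := by
    apply lin_ext
    intro p
    change rr l (homogeneousComponent n (monomial p 1)) =
      homogeneousComponent n (rr l (monomial p 1))
    have h2 : rr l (monomial p 1) =
        (if p l = 0 ∨ p l = d then monomial p 1 else 0 : PP d) := by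
      unfold rr
      rw [onMon_monomial, one_smul]
    rw [hc_monomial, h2]
    by_cases hA : p l = 0 ∨ p l = d
    · rw [if_pos hA, hc_monomial]
      split_ifs
      · rw [h2, if_pos hA]
      · rw [map_zero]
    · rw [if_neg hA, map_zero]
      split_ifs
      · rw [h2, if_neg hA]
      · rw [map_zero]
  exact LinearMap.congr_fun h f

theorem coeff_rr (l : ZMod d) (f : PP d) (q : ZMod d →₀ ℕ) :
    coeff q (rr l f) = if q l = 0 ∨ q l = d then coeff q f else 0 := by
  classical
  by_cases hq : q l = 0 ∨ q l = d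
  · rw [if_pos hq]
    have h : lcoeff (ZMod 2) q ∘ₗ rr l = lcoeff (ZMod 2) q := by
      apply lin_ext
      intro p
      change coeff q (rr l (monomial p 1)) = coeff q (monomial p 1)
      unfold rr
      rw [onMon_monomial, one_smul]
      split_ifs with h1
      · rfl
      · rw [coeff_zero, coeff_monomial, if_neg]
        rintro rfl
        exact h1 hq
    exact LinearMap.congr_fun h f
  · rw [if_neg hq]
    have h : lcoeff (ZMod 2) q ∘ₗ rr l = 0 := by
      apply lin_ext
      intro p
      change coeff q (rr l (monomial p 1)) = 0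
      unfold rr
      rw [onMon_monomial, one_smul]
      split_ifs with h1
      · rw [coeff_monomial, if_neg]
        rintro rfl
        exact hq h1
      · rw [coeff_zero]
    exact LinearMap.congr_fun h f

/-- coefficients in the box -/
noncomputable def cE (q : ZMod d →₀ ℕ) (hq : Box d q) : EE d →ₗ[ZMod 2] ZMod 2 :=
  ((JJ d).restrictScalars (ZMod 2)).liftQ (lcoeff (ZMod 2) q) (fun _ hf => hf q hq)

theorem cE_mk (q : ZMod d →₀ ℕ) (hq : Box d q) (f : PP d) :
    cE q hq (Ideal.Quotient.mk (JJ d) f) = coeff q f := rfl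

theorem eq_zero_of_cE (a : EE d) (h : ∀ q (hq : Box d q), cE q hq a = 0) : a = 0 := by
  obtain ⟨f, rfl⟩ := Ideal.Quotient.mk_surjective a
  rw [Ideal.Quotient.eq_zero_iff_mem]
  intro q hq
  exact h q hq

theorem cE_rlE (l : ZMod d) (a : EE d) (q : ZMod d →₀ ℕ) (hq : Box d q) :
    cE q hq (rlE l a) = if q l = 0 ∨ q l = d then cE q hq a else 0 := by
  obtain ⟨f, rfl⟩ := Ideal.Quotient.mk_surjective a
  rw [rlE_mk, cE_mk, cE_mk, coeff_rr]

theorem cE_hE (n : ℕ) (a : EE d) (q : ZMod d →₀ ℕ) (hq : Box d q) :
    cE q hq (hE n a) = if Finsupp.degree q = n then cE q hq a else 0 := by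
  obtain ⟨f, rfl⟩ := Ideal.Quotient.mk_surjective a
  rw [hE_mk, cE_mk, cE_mk, coeff_homogeneousComponent]

theorem hlE_hE (l : ZMod d) (n : ℕ) (a : EE d) : hlE l (hE (n + 1) a) = hE n (hlE l a) := by
  obtain ⟨f, rfl⟩ := Ideal.Quotient.mk_surjective a
  rw [hE_mk, hlE_mk, hlE_mk, hE_mk, hh_hc]

theorem rlE_hE (l : ZMod d) (n : ℕ) (a : EE d) : rlE l (hE n a) = hE n (rlE l a) := by
  obtain ⟨f, rfl⟩ := Ideal.Quotient.mk_surjective a
  rw [hE_mk, rlE_mk, rlE_mk, hE_mk, rr_hc]

theorem dE_dE (a : EE d) : dE (dE a) = 0 := by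
  obtain ⟨f, rfl⟩ := Ideal.Quotient.mk_surjective a
  rw [dE_mk, dE_mk, del_del, map_zero]

theorem acyc_aux (hd : Odd d) (n : ℕ) (a : EE d) (ha : hE (n + 1) a = a) (hda : dE a = 0)
    (s : Finset (ZMod d)) : ∃ b c : EE d, a = c + dE b ∧ hE n b = b ∧ hE (n + 1) c = c ∧
      dE c = 0 ∧ ∀ q (hq : Box d q), (∃ l ∈ s, ¬ (q l = 0 ∨ q l = d)) → cE q hq c = 0 := by
  classical
  induction s using Finset.induction_on with
  | empty =>
    refine ⟨0, a, by rw [map_zero, add_zero], map_zero _, ha, hda, ?_⟩
    rintro q hq ⟨l, hl, _⟩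
    exact absurd hl (notMem_empty l)
  | insert l s hl ih =>
    obtain ⟨b, c, h1, h2, h3, h4, h5⟩ := ih
    have h6 := homE hd l c
    rw [h4, map_zero, zero_add] at h6
    have h7 : c = rlE l c + dE (hlE l c) := by
      have e1 := two_zero (rlE l c)
      have e2 := two_zero (dE (hlE l c))
      linear_combination h6 - e1 - e2
    refine ⟨b + hlE l c, rlE l c, ?_, ?_, ?_, ?_, ?_⟩
    · rw [map_add, h1]
      nth_rewrite 1 [h7]
      abel
    · rw [map_add, h2, ← hlE_hE, h3]
    · rw [← rlE_hE, h3]
    · have h8 := congrArg dE h7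
      rw [map_add, dE_dE, add_zero, h4] at h8
      exact h8.symm
    · rintro q hq ⟨m, hm, hmq⟩
      rw [cE_rlE]
      by_cases hml : m = l
      · rw [← hml, if_neg hmq]
      · split_ifs
        · exact h5 q hq ⟨m, (mem_insert.1 hm).resolve_left hml, hmq⟩
        · rfl

theorem acyc_E (hd : Odd d) (n : ℕ) (a : EE d) (ha : hE (n + 1) a = a) (hn : ¬ (d ∣ n + 1))
    (hda : dE a = 0) : ∃ b : EE d, hE n b = b ∧ a = dE b := by
  obtain ⟨b, c, h1, h2, h3, _, h5⟩ := acyc_aux hd n a ha hda univ
  have hc : c = 0 := by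
    apply eq_zero_of_cE
    intro q hq
    by_cases hall : ∀ l, q l = 0 ∨ q l = d
    · rw [← h3, cE_hE, if_neg]
      intro hdeg
      apply hn
      rw [← hdeg, Finsupp.degree_eq_sum]
      refine dvd_sum fun l _ => ?_
      rcases hall l with h | h
      · rw [h]; exact dvd_zero d
      · rw [h]
    · push Not at hall
      obtain ⟨l, hl⟩ := hall
      exact h5 q hq ⟨l, mem_univ l, by tauto⟩
  exact ⟨b, h2, by rw [h1, hc, zero_add]⟩

/-! ### the remaining data -/

/-- the top exponent -/
noncomputable def top (d : ℕ) [NeZero d] : ZMod d →₀ ℕ := Finsupp.equivFunOnFinite.symm fun _ => d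

theorem top_apply (l : ZMod d) : top d l = d := rfl

theorem box_top : Box d (top d) := fun l => le_of_eq (top_apply l)

theorem box_iff (q : ZMod d →₀ ℕ) : Box d q ↔ q ≤ top d := Iff.rfl

/-- the top coefficient -/
noncomputable def tauE : EE d →ₗ[ZMod 2] ZMod 2 := cE (top d) box_top

theorem box_sub (q : ZMod d →₀ ℕ) : Box d (top d - q) := by
  intro l
  rw [Finsupp.tsub_apply, top_apply]
  omega

theorem tau_nondeg (a : EE d) (h : ∀ b, tauE (a * b) = 0) : a = 0 := by
  classical
  apply eq_zero_of_cE
  intro q hq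
  obtain ⟨f, rfl⟩ := Ideal.Quotient.mk_surjective a
  have h1 := h (Ideal.Quotient.mk (JJ d) (monomial (top d - q) 1))
  unfold tauE at h1
  rw [← map_mul, cE_mk, coeff_mul_monomial', if_pos tsub_le_self, mul_one,
    tsub_tsub_cancel_of_le ((box_iff q).1 hq)] at h1
  exact h1

theorem box_zero : Box d 0 := fun _ => Nat.zero_le d

/-- the augmentation -/
noncomputable def epsE : EE d →ₐ[ZMod 2] ZMod 2 :=
  Ideal.Quotient.liftₐ (JJ d) (aeval fun _ => (0 : ZMod 2)) (fun f hf => by
    rw [aeval_zero']
    have := hf 0 box_zero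
    rw [← constantCoeff_eq] at this
    rw [this]
    exact map_zero _)

theorem epsE_mk (f : PP d) : epsE (Ideal.Quotient.mk (JJ d) f) = coeff 0 f := by
  change aeval (fun _ => (0 : ZMod 2)) f = _
  rw [aeval_zero', constantCoeff_eq]
  rfl

theorem finite_E : FiniteDimensional (ZMod 2) (EE d) := by
  let T := {q : ZMod d →₀ ℕ // Box d q}
  have hT : Finite T := by
    have h1 : (Set.Iic (top d)).Finite := Set.finite_Iic _
    exact h1.to_subtype
  let L : EE d →ₗ[ZMod 2] (T → ZMod 2) := LinearMap.pi fun q => cE q.1 q.2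
  apply Module.Finite.of_injective L
  rw [← LinearMap.ker_eq_bot, LinearMap.ker_eq_bot']
  intro a ha
  exact eq_zero_of_cE a fun q hq => congrFun ha ⟨q, hq⟩

/-- the data -/
noncomputable def eData (hd : Odd d) : EData (ZMod 2) d (EE d) where
  X l := Ideal.Quotient.mk (JJ d) (X l)
  π := hE
  σ := sE
  δ := dE
  p := pE hd
  τ := tauE
  ε := epsE
  t := Finsupp.degree (top d)
  fin := finite_E
  two := two_zero
  π_π := by
    intro m n a
    obtain ⟨f, rfl⟩ := Ideal.Quotient.mk_surjective a
    rw [hE_mk, hE_mk, hc_hc]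
    split_ifs
    · rfl
    · rw [map_zero]
  π_sum := by
    intro a
    have h : (∑ n ∈ range (Finsupp.degree (top d) + 1), hE n a) - a = 0 := by
      apply eq_zero_of_cE
      intro q hq
      rw [map_sub, map_sum, sum_congr rfl fun n _ => cE_hE n a q hq, sum_ite_eq, if_pos, sub_self]
      rw [mem_range]
      have : Finsupp.degree q ≤ Finsupp.degree (top d) := by
        rw [Finsupp.degree_eq_sum, Finsupp.degree_eq_sum]
        exact sum_le_sum fun l _ => hq l
      omega
    exact sub_eq_zero.1 h
  π_mul := by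
    intro m n a b
    obtain ⟨f, rfl⟩ := Ideal.Quotient.mk_surjective a
    obtain ⟨g, rfl⟩ := Ideal.Quotient.mk_surjective b
    rw [hE_mk, hE_mk, ← map_mul, hE_mk, homogeneousComponent_of_mem
      (IsHomogeneous.mul (homogeneousComponent_isHomogeneous m f)
        (homogeneousComponent_isHomogeneous n g)), if_pos rfl]
  π_zero := by
    intro a
    obtain ⟨f, rfl⟩ := Ideal.Quotient.mk_surjective a
    rw [hE_mk, epsE_mk, homogeneousComponent_zero]
    rfl
  π_X := by
    intro l
    rw [hE_mk, homogeneousComponent_of_mem (isHomogeneous_X (ZMod 2) l), if_pos rfl]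
  ε_π := by
    intro n a
    obtain ⟨f, rfl⟩ := Ideal.Quotient.mk_surjective a
    rw [hE_mk, epsE_mk, coeff_homogeneousComponent, if_neg]
    rw [map_zero]
    omega
  σ_X := by
    intro l
    rw [sE_mk, sh_X]
  σ_π := by
    intro n a
    obtain ⟨f, rfl⟩ := Ideal.Quotient.mk_surjective a
    rw [hE_mk, sE_mk, sE_mk, hE_mk, sh_hc]
  δ_mul := by
    intro a b
    obtain ⟨f, rfl⟩ := Ideal.Quotient.mk_surjective a
    obtain ⟨g, rfl⟩ := Ideal.Quotient.mk_surjective b
    rw [← map_mul, dE_mk, dE_mk, dE_mk, ← map_mul, ← map_mul, ← map_add, Derivation.leibniz,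
      smul_eq_mul, smul_eq_mul, mul_comm g]
  δ_X := by
    intro l
    rw [dE_mk, del_X, map_mul]
  δ_δ := dE_dE
  δ_σ := by
    intro a
    obtain ⟨f, rfl⟩ := Ideal.Quotient.mk_surjective a
    rw [sE_mk, dE_mk, dE_mk, sE_mk, del_sh]
  δ_π := by
    intro n a
    obtain ⟨f, rfl⟩ := Ideal.Quotient.mk_surjective a
    rw [hE_mk, dE_mk, dE_mk, hE_mk, del_hc]
  p_π := by
    intro l n a
    obtain ⟨f, rfl⟩ := Ideal.Quotient.mk_surjective a
    rw [hE_mk, pE_mk, pE_mk, hE_mk, pd_hc]
  p_π_zero := by
    intro l a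
    obtain ⟨f, rfl⟩ := Ideal.Quotient.mk_surjective a
    rw [hE_mk, pE_mk, pd_hc_zero, map_zero]
  htp := by
    intro l m h a
    obtain ⟨f, rfl⟩ := Ideal.Quotient.mk_surjective a
    rw [dE_mk, ← map_add, ← map_mul, ← map_add, pE_mk, pE_mk, dE_mk, ← map_mul, ← map_add,
      ← map_add, htp_P l m h]
  acyc := fun n a h1 h2 h3 => acyc_E hd n a h1 h2 h3
  τ_nondeg := tau_nondeg
  τ_top := by
    intro n a hn
    unfold tauE
    rw [cE_hE, if_neg (Ne.symm hn)]

end ops

end B1

theorem stmtB1 : StmtB1 := by
  intro d hd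
  have : NeZero d := ⟨fun h => by rw [h] at hd; exact absurd hd (by decide)⟩
  exact ⟨B1.EE d, inferInstance, inferInstance, ⟨B1.eData hd⟩⟩

end Pool.Agent.Run7.H229
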