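import Pool.Agent.Run7.h229.Iface

/-!
# Piece B2: the twisted differential extension
-/

set_option autoImplicit false

namespace Pool.Agent.Run7.H229

open Finset

variable {K : Type} [Field K] {d : ℕ} {E : Type} [CommRing E] [Algebra K E]

namespace EData

variable (D : EData K d E)

/-- the twisted product -/
def tm (a b : E) : E := ∑ n ∈ range (D.t + 1), D.π n a * (D.σ ^ n) b

theorem tm_add_left (a b c : E) : D.tm (a + b) c = D.tm a c + D.tm b c := by
  simp [tm, add_mul, sum_add_distrib]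

theorem tm_add_right (a b c : E) : D.tm a (b + c) = D.tm a b + D.tm a c := by
  simp [tm, mul_add, sum_add_distrib]

theorem tm_zero_left (a : E) : D.tm 0 a = 0 := by simp [tm]
theorem tm_zero_right (a : E) : D.tm a 0 = 0 := by simp [tm]

theorem tm_smul_left (k : K) (a b : E) : D.tm (k • a) b = k • D.tm a b := by
  simp [tm, smul_sum]

theorem tm_smul_right (k : K) (a b : E) : D.tm a (k • b) = k • D.tm a b := by
  simp [tm, smul_sum]

theorem tm_sum_left {ι : Type*} (s : Finset ι) (f : ι → E) (c : E) :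
    D.tm (∑ i ∈ s, f i) c = ∑ i ∈ s, D.tm (f i) c := by
  classical
  induction s using Finset.induction_on with
  | empty => simp [tm_zero_left]
  | insert a s ha ih => rw [sum_insert ha, sum_insert ha, tm_add_left, ih]

theorem tm_sum_right {ι : Type*} (s : Finset ι) (f : ι → E) (c : E) :
    D.tm c (∑ i ∈ s, f i) = ∑ i ∈ s, D.tm c (f i) := by
  classical
  induction s using Finset.induction_on with
  | empty => simp [tm_zero_right]
  | insert a s ha ih => rw [sum_insert ha, sum_insert ha, tm_add_right, ih]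

theorem π_big (n : ℕ) (h : D.t < n) (a : E) : D.π n a = 0 := by
  conv_lhs => rw [← D.π_sum a]
  rw [map_sum]
  refine sum_eq_zero fun m hm => ?_
  rw [D.π_π, if_neg]
  rw [mem_range] at hm
  omega

theorem spow_π (k n : ℕ) (a : E) : (D.σ ^ k) (D.π n a) = D.π n ((D.σ ^ k) a) := by
  induction k with
  | zero => rfl
  | succ k ih => rw [pow_succ', AlgEquiv.mul_apply, AlgEquiv.mul_apply, ih, D.σ_π]

theorem π_idem (n : ℕ) (a : E) : D.π n (D.π n a) = D.π n a := by rw [D.π_π, if_pos rfl]

theorem tm_hom (n : ℕ) (a b : E) : D.tm (D.π n a) b = D.π n a * (D.σ ^ n) b := by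
  unfold tm
  rcases lt_or_ge D.t n with h | h
  · simp [D.π_big n h]
  · rw [sum_eq_single n]
    · rw [D.π_idem]
    · intro m _ hm
      rw [D.π_π, if_neg hm, zero_mul]
    · intro h1
      exact absurd (mem_range.2 (by omega)) h1

theorem tm_hom' {n : ℕ} {a : E} (ha : D.π n a = a) (b : E) : D.tm a b = a * (D.σ ^ n) b := by
  rw [← ha, D.tm_hom, ha]

theorem hom_tm {m n : ℕ} {a b : E} (ha : D.π m a = a) (hb : D.π n b = b) :
    D.π (m + n) (D.tm a b) = D.tm a b := by
  rw [D.tm_hom' ha]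
  have h1 : (D.σ ^ m) b = D.π n ((D.σ ^ m) b) := by rw [← D.spow_π, hb]
  rw [h1, ← ha, D.π_mul]

theorem spow_add (m n : ℕ) (a : E) : (D.σ ^ (m + n)) a = (D.σ ^ m) ((D.σ ^ n) a) := by
  rw [pow_add, AlgEquiv.mul_apply]

theorem tm_assoc_hom {m n : ℕ} {a b : E} (ha : D.π m a = a) (hb : D.π n b = b) (c : E) :
    D.tm (D.tm a b) c = D.tm a (D.tm b c) := by
  rw [D.tm_hom' (D.hom_tm ha hb), D.tm_hom' ha, D.tm_hom' ha, D.tm_hom' hb, map_mul, spow_add,
    mul_assoc]

theorem tm_assoc (a b c : E) : D.tm (D.tm a b) c = D.tm a (D.tm b c) := by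
  rw [← D.π_sum a, ← D.π_sum b]
  simp only [tm_sum_left, tm_sum_right]
  refine sum_congr rfl fun i _ => ?_
  refine sum_congr rfl fun j _ => ?_
  exact D.tm_assoc_hom (D.π_idem j a) (D.π_idem i b) c

theorem tm_one_left (a : E) : D.tm 1 a = a := by
  have h : D.π 0 1 = 1 := by rw [D.π_zero, map_one, map_one]
  rw [D.tm_hom' h, one_mul, pow_zero]
  rfl

theorem tm_one_right (a : E) : D.tm a 1 = a := by
  conv_rhs => rw [← D.π_sum a]
  unfold tm
  refine sum_congr rfl fun n _ => ?_
  rw [map_one, mul_one]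

theorem σ_tm (a b : E) : D.σ (D.tm a b) = D.tm (D.σ a) (D.σ b) := by
  unfold tm
  rw [map_sum]
  refine sum_congr rfl fun n _ => ?_
  rw [map_mul, D.σ_π, ← AlgEquiv.mul_apply, ← AlgEquiv.mul_apply, ← pow_succ', ← pow_succ]

/-- `D = δ σ` -/
def DD (a : E) : E := D.δ (D.σ a)

theorem DD_add (a b : E) : D.DD (a + b) = D.DD a + D.DD b := by simp [DD]
theorem DD_zero : D.DD 0 = 0 := by simp [DD]
theorem DD_smul (k : K) (a : E) : D.DD (k • a) = k • D.DD a := by simp [DD]

theorem DD_DD (a : E) : D.DD (D.DD a) = 0 := by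
  unfold DD
  rw [← D.δ_σ, D.δ_δ]

theorem DD_σ (a : E) : D.DD (D.σ a) = D.σ (D.DD a) := by
  unfold DD
  rw [← D.δ_σ]

theorem δ_spow (n : ℕ) (a : E) : D.δ ((D.σ ^ n) a) = (D.σ ^ n) (D.δ a) := by
  induction n with
  | zero => rfl
  | succ k ih => rw [pow_succ', AlgEquiv.mul_apply, AlgEquiv.mul_apply, D.δ_σ, ih]

theorem DD_tm (a b : E) : D.DD (D.tm a b) = D.tm (D.σ a) (D.DD b) + D.tm (D.DD a) b := by
  rw [← D.π_sum a, D.tm_sum_left]
  have e1 : D.DD (∑ i ∈ range (D.t + 1), D.tm (D.π i a) b) =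
      ∑ i ∈ range (D.t + 1), D.DD (D.tm (D.π i a) b) := by
    unfold DD
    rw [map_sum, map_sum]
  have e2 : D.DD (∑ i ∈ range (D.t + 1), D.π i a) =
      ∑ i ∈ range (D.t + 1), D.DD (D.π i a) := by
    unfold DD
    rw [map_sum, map_sum]
  rw [e1, e2, map_sum, D.tm_sum_left, D.tm_sum_left, ← sum_add_distrib]
  refine sum_congr rfl fun i _ => ?_
  have h1 : D.π i (D.σ (D.π i a)) = D.σ (D.π i a) := by rw [← D.σ_π, D.π_idem]
  have h2 : D.π (i + 1) (D.DD (D.π i a)) = D.DD (D.π i a) := by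
    unfold DD
    rw [← D.δ_π, h1]
  rw [D.tm_hom' h1, D.tm_hom' h2, D.tm_hom]
  unfold DD
  rw [map_mul, D.δ_mul, ← AlgEquiv.mul_apply D.σ (D.σ ^ i), ← pow_succ', pow_succ,
    AlgEquiv.mul_apply, D.δ_spow]

end EData

/-- the algebra `B = T + T s` -/
def BB (_ : EData K d E) : Type := E × E

namespace BB

variable {D : EData K d E}

instance : AddCommGroup (BB D) := inferInstanceAs (AddCommGroup (E × E))
instance : Module K (BB D) := inferInstanceAs (Module K (E × E))

/-- constructor -/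
def mk (a b : E) : BB D := (a, b)

/-- first coordinate -/
def fst (x : BB D) : E := Prod.fst x
/-- second coordinate -/
def snd (x : BB D) : E := Prod.snd x

theorem ext {x y : BB D} (h1 : x.fst = y.fst) (h2 : x.snd = y.snd) : x = y := Prod.ext h1 h2

@[simp] theorem fst_mk (a b : E) : (mk a b : BB D).fst = a := rfl
@[simp] theorem snd_mk (a b : E) : (mk a b : BB D).snd = b := rfl
@[simp] theorem fst_add (x y : BB D) : (x + y).fst = x.fst + y.fst := rfl
@[simp] theorem snd_add (x y : BB D) : (x + y).snd = x.snd + y.snd := rfl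
@[simp] theorem fst_zero : (0 : BB D).fst = 0 := rfl
@[simp] theorem snd_zero : (0 : BB D).snd = 0 := rfl
@[simp] theorem fst_smul (k : K) (x : BB D) : (k • x).fst = k • x.fst := rfl
@[simp] theorem snd_smul (k : K) (x : BB D) : (k • x).snd = k • x.snd := rfl

instance : One (BB D) := ⟨mk 1 0⟩
instance : Mul (BB D) := ⟨fun x y => mk (D.tm x.fst y.fst + D.tm x.snd (D.DD y.fst))
  (D.tm x.fst y.snd + D.tm x.snd (D.σ y.fst) + D.tm x.snd (D.DD y.snd))⟩

@[simp] theorem fst_one : (1 : BB D).fst = 1 := rfl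
@[simp] theorem snd_one : (1 : BB D).snd = 0 := rfl
@[simp] theorem fst_mul (x y : BB D) :
    (x * y).fst = D.tm x.fst y.fst + D.tm x.snd (D.DD y.fst) := rfl
@[simp] theorem snd_mul (x y : BB D) : (x * y).snd =
    D.tm x.fst y.snd + D.tm x.snd (D.σ y.fst) + D.tm x.snd (D.DD y.snd) := rfl

theorem DD_one : D.DD 1 = 0 := by
  unfold EData.DD
  rw [map_one]
  have h := D.δ_mul 1 1
  rw [one_mul, mul_one] at h
  simpa using h

theorem mul_assoc' (x y z : BB D) : x * y * z = x * (y * z) := by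
  apply ext
  · simp only [fst_mul, snd_mul, D.tm_add_left, D.tm_add_right, D.DD_add, D.tm_assoc, D.DD_tm,
      D.DD_DD, D.tm_zero_right]
    abel
  · simp only [fst_mul, snd_mul, D.tm_add_left, D.tm_add_right, D.DD_add, D.tm_assoc, D.DD_tm,
      D.DD_DD, D.tm_zero_right, D.σ_tm, map_add, D.DD_σ]
    have h := D.two (D.tm x.snd (D.tm (D.σ y.snd) (D.σ (D.DD z.fst))))
    have h2 : ∀ a b : E, a + (D.tm x.snd (D.tm (D.σ y.snd) (D.σ (D.DD z.fst))) +
      D.tm x.snd (D.tm (D.σ y.snd) (D.σ (D.DD z.fst)))) = b → a = b := by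
      intro a b hab
      rw [h, add_zero] at hab
      exact hab
    apply h2
    abel

instance : Ring (BB D) :=
  { (inferInstance : AddCommGroup (BB D)), (inferInstance : One (BB D)),
    (inferInstance : Mul (BB D)) with
    left_distrib := fun x y z => by
      apply ext
      · simp only [fst_mul, fst_add, D.tm_add_right, D.DD_add]
        abel
      · simp only [snd_mul, snd_add, fst_add, D.tm_add_right, D.DD_add, map_add]
        abel
    right_distrib := fun x y z => by
      apply ext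
      · simp only [fst_mul, fst_add, snd_add, D.tm_add_left]
        abel
      · simp only [snd_mul, snd_add, fst_add, D.tm_add_left]
        abel
    zero_mul := fun x => by
      apply ext
      · simp [D.tm_zero_left]
      · simp [D.tm_zero_left]
    mul_zero := fun x => by
      apply ext
      · simp [D.tm_zero_right, D.DD_zero]
      · simp [D.tm_zero_right, D.DD_zero]
    mul_assoc := mul_assoc'
    one_mul := fun x => by
      apply ext
      · simp [D.tm_one_left, D.tm_zero_left]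
      · simp [D.tm_one_left, D.tm_zero_left]
    mul_one := fun x => by
      apply ext
      · simp [D.tm_one_right, D.tm_zero_right, DD_one]
      · simp [D.tm_one_right, D.tm_zero_right, D.DD_zero] }

instance : Algebra K (BB D) := Algebra.ofModule
  (fun k x y => by
    apply ext
    · simp [D.tm_smul_left]
    · simp [D.tm_smul_left])
  (fun k x y => by
    apply ext
    · simp [D.tm_smul_right, D.DD_smul]
    · simp [D.tm_smul_right, D.DD_smul])

end BB

namespace EData

variable (D : EData K d E)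

include D in
theorem add_eq_zero' {a b : E} (h : a + b = 0) : a = b := by
  have h1 := D.two b
  calc a = a + (b + b) := by rw [h1, add_zero]
    _ = (a + b) + b := by abel
    _ = b := by rw [h, zero_add]

theorem hom_of_π {n : ℕ} {a : E} (ha : D.π n a = a) (k : ℕ) :
    D.π k a = if k = n then a else 0 := by
  rw [← ha, D.π_π, ha]

/-- comparison of homogeneous parts -/
theorem sum_hom_zero (s : Finset ℕ) (f : ℕ → E) (c : ℕ) (hf : ∀ n ∈ s, D.π (n + c) (f n) = f n)
    (h : ∑ n ∈ s, f n = 0) (n : ℕ) (hn : n ∈ s) : f n = 0 := by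
  have h1 := congrArg (D.π (n + c)) h
  rw [map_sum, map_zero, sum_eq_single n, hf n hn] at h1
  · exact h1
  · intro m hm hmn
    rw [D.hom_of_π (hf m hm), if_neg]
    omega
  · intro h2
    exact absurd hn h2

theorem ε_alg (k : K) : D.ε (algebraMap K E k) = k := by
  rw [AlgHom.commutes]
  rfl

theorem ε_π0 (a : E) : D.ε (D.π 0 a) = D.ε a := by
  rw [D.π_zero, D.ε_alg]

theorem π0_one : D.π 0 (1 : E) = 1 := by rw [D.π_zero, map_one, map_one]

theorem ε_σ (a : E) : D.ε (D.σ a) = D.ε a := by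
  have h : D.π 0 (D.σ a) = algebraMap K E (D.ε a) := by
    rw [← D.σ_π, D.π_zero, AlgEquiv.commutes]
  rw [← D.ε_π0 (D.σ a), h, D.ε_alg]

theorem ε_spow (n : ℕ) (a : E) : D.ε ((D.σ ^ n) a) = D.ε a := by
  induction n with
  | zero => rfl
  | succ k ih => rw [pow_succ', AlgEquiv.mul_apply, D.ε_σ, ih]

theorem ε_tm (a b : E) : D.ε (D.tm a b) = D.ε a * D.ε b := by
  unfold tm
  rw [map_sum, sum_eq_single 0]
  · rw [map_mul, D.ε_π0, pow_zero]
    rfl
  · intro n _ hn
    obtain ⟨k, rfl⟩ := Nat.exists_eq_succ_of_ne_zero hn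
    rw [map_mul, Nat.succ_eq_add_one, D.ε_π, zero_mul]
  · intro h
    exact absurd (mem_range.2 (by omega)) h

theorem ε_δ (a : E) : D.ε (D.δ a) = 0 := by
  rw [← D.π_sum a, map_sum, map_sum]
  refine sum_eq_zero fun n _ => ?_
  rw [D.δ_π, D.ε_π]

/-- all homogeneous parts of degree less than `n` vanish -/
def Ord (n : ℕ) (a : E) : Prop := ∀ i, i < n → D.π i a = 0

theorem Ord.add {n : ℕ} {a b : E} (ha : D.Ord n a) (hb : D.Ord n b) : D.Ord n (a + b) := by
  intro i hi
  rw [map_add, ha i hi, hb i hi, add_zero]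

theorem Ord.tm {m n : ℕ} {a b : E} (ha : D.Ord m a) (hb : D.Ord n b) :
    D.Ord (m + n) (D.tm a b) := by
  intro k hk
  rw [← D.π_sum a, ← D.π_sum b]
  simp only [tm_sum_left, tm_sum_right, map_sum]
  refine sum_eq_zero fun i _ => sum_eq_zero fun j _ => ?_
  by_cases h1 : j < m
  · rw [ha j h1, D.tm_zero_left, map_zero]
  · by_cases h2 : i < n
    · rw [hb i h2, D.tm_zero_right, map_zero]
    · rw [D.hom_of_π (D.hom_tm (D.π_idem j a) (D.π_idem i b)), if_neg]
      omega

theorem Ord.σ {n : ℕ} {a : E} (ha : D.Ord n a) : D.Ord n (D.σ a) := by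
  intro i hi
  rw [← D.σ_π, ha i hi, map_zero]

theorem δ_π0 (a : E) : D.π 0 (D.δ a) = 0 := by
  rw [D.π_zero, D.ε_δ, map_zero]

theorem Ord.δ {n : ℕ} {a : E} (ha : D.Ord n a) : D.Ord (n + 1) (D.δ a) := by
  intro i hi
  rcases Nat.eq_zero_or_pos i with h | h
  · rw [h, D.δ_π0]
  · obtain ⟨k, rfl⟩ := Nat.exists_eq_succ_of_ne_zero h.ne'
    rw [Nat.succ_eq_add_one, ← D.δ_π, ha k (by omega), map_zero]

theorem Ord.mono {m n : ℕ} (h : m ≤ n) {a : E} (ha : D.Ord n a) : D.Ord m a :=
  fun i hi => ha i (by omega)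

theorem Ord.eq_zero {n : ℕ} (h : D.t < n) {a : E} (ha : D.Ord n a) : a = 0 := by
  rw [← D.π_sum a]
  refine sum_eq_zero fun i hi => ha i ?_
  rw [mem_range] at hi
  omega

theorem tm_X (l : ZMod d) (a : E) : D.tm (D.X l) a = D.X l * D.σ a := by
  rw [D.tm_hom' (D.π_X l), pow_one]

theorem spow_X (n : ℕ) (l : ZMod d) : (D.σ ^ n) (D.X l) = D.X (l + n) := by
  induction n with
  | zero => simp
  | succ k ih =>
    rw [pow_succ', AlgEquiv.mul_apply, ih, D.σ_X]
    congr 1
    push_cast
    ring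

theorem τ_tm_nondeg (a : E) (h : ∀ b, D.τ (D.tm a b) = 0) : a = 0 := by
  have key : ∀ n, D.π n a = 0 := by
    intro n
    rcases lt_or_ge D.t n with hn | hn
    · exact D.π_big n hn a
    apply D.τ_nondeg
    intro b
    -- reduce to homogeneous b
    have hτ : ∀ m, D.τ (D.π n a * D.π m b) = 0 := by
      intro m
      by_cases hm : m = D.t - n
      · have h1 := h ((D.σ ^ n).symm (D.π m b))
        rw [← D.π_sum a, D.tm_sum_left, map_sum, sum_eq_single n] at h1
        · rw [D.tm_hom, AlgEquiv.apply_symm_apply] at h1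
          exact h1
        · intro i hi hin
          have h2 : D.π m ((D.σ ^ n).symm (D.π m b)) = (D.σ ^ n).symm (D.π m b) := by
            apply (D.σ ^ n).injective
            rw [D.spow_π, AlgEquiv.apply_symm_apply, D.π_idem]
          rw [← D.hom_tm (D.π_idem i a) h2]
          apply D.τ_top
          omega
        · intro h2
          exact absurd (mem_range.2 (by omega)) h2
      · rw [← D.π_mul]
        apply D.τ_top
        omega
    rw [← D.π_sum b, mul_sum, map_sum]
    exact sum_eq_zero fun m _ => hτ m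
  rw [← D.π_sum a]
  exact sum_eq_zero fun n _ => key n

end EData

namespace BB

variable {D : EData K d E}

/-- the elements `x_j = s + X_j` -/
def xx (j : ℕ) : BB D := mk (D.X (j : ZMod d)) 1

@[simp] theorem fst_xx (j : ℕ) : (xx j : BB D).fst = D.X (j : ZMod d) := rfl
@[simp] theorem snd_xx (j : ℕ) : (xx j : BB D).snd = 1 := rfl

/-- the augmentation -/
def eps : BB D →ₐ[K] K := AlgHom.ofLinearMap
  { toFun := fun x => D.ε x.fst
    map_add' := fun x y => by rw [fst_add, map_add]
    map_smul' := fun k x => by rw [fst_smul, map_smul]; rfl }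
  (by
    change D.ε (1 : E) = 1
    exact map_one _)
  (fun x y => by
    change D.ε (x * y).fst = D.ε x.fst * D.ε y.fst
    rw [fst_mul, map_add, D.ε_tm, D.ε_tm]
    unfold EData.DD
    rw [D.ε_δ, mul_zero, add_zero])

theorem eps_apply (x : BB D) : eps x = D.ε x.fst := rfl

/-- the Frobenius form -/
def phi : BB D →ₗ[K] K :=
  { toFun := fun x => D.τ x.snd
    map_add' := fun x y => by rw [snd_add, map_add]
    map_smul' := fun k x => by rw [snd_smul, map_smul]; rfl }

theorem phi_apply (x : BB D) : phi x = D.τ x.snd := rfl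

theorem xx_mul (j : ℕ) (b : BB D) : xx j * b = mk
    (D.X (j : ZMod d) * D.σ b.fst + D.δ (D.σ b.fst))
    (D.X (j : ZMod d) * D.σ b.snd + D.σ b.fst + D.δ (D.σ b.snd)) := by
  apply ext
  · rw [fst_mul, fst_xx, snd_xx, D.tm_X, D.tm_one_left]
    rfl
  · rw [snd_mul, fst_xx, snd_xx, D.tm_X, D.tm_one_left, D.tm_one_left]
    rfl

theorem δ_one : D.δ 1 = 0 := by
  have h := D.δ_mul 1 1
  rw [one_mul, mul_one] at h
  simpa using h

theorem mul_xx (b : BB D) (j : ℕ) : b * xx j = mk
    (D.tm b.fst (D.X (j : ZMod d)) + D.tm b.snd (D.X ((j : ZMod d) + 1) * D.X ((j : ZMod d) + 1)))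
    (b.fst + D.tm b.snd (D.X ((j : ZMod d) + 1))) := by
  apply ext
  · rw [fst_mul, fst_xx]
    unfold EData.DD
    rw [D.σ_X, D.δ_X]
    rfl
  · rw [snd_mul, fst_xx, snd_xx, D.tm_one_right, DD_one, D.tm_zero_right, add_zero, D.σ_X]
    rfl

theorem xx_xx (j : ℕ) : (xx (j + 1) * xx j : BB D) = 0 := by
  rw [xx_mul]
  apply ext
  · rw [fst_mk, fst_xx, D.σ_X, D.δ_X, fst_zero]
    push_cast
    exact D.two _
  · rw [snd_mk, fst_xx, snd_xx, D.σ_X, snd_zero, map_one, δ_one, mul_one, add_zero]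
    push_cast
    exact D.two _

/-- `θ b = b.fst + b.snd ⋆ X_1` -/
def theta (b : BB D) : E := b.fst + D.tm b.snd (D.X 1)

theorem theta_add (a b : BB D) : theta (a + b) = theta a + theta b := by
  unfold theta
  rw [fst_add, snd_add, D.tm_add_left]
  abel

theorem mk_mul_x1 (a : E) : (mk a 0 * xx 1 : BB D) = mk (D.tm a (D.X 1)) a := by
  rw [mul_xx]
  apply ext
  · simp [D.tm_zero_left]
  · simp [D.tm_zero_left]

theorem theta_zero_iff (b : BB D) : theta b = 0 ↔ ∃ c : BB D, b = c * xx 1 := by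
  constructor
  · intro h
    refine ⟨mk b.snd 0, ?_⟩
    rw [mk_mul_x1]
    apply ext
    · exact D.add_eq_zero' h
    · rfl
  · rintro ⟨c, rfl⟩
    have h : (c * xx 1 : BB D) * xx 0 = 0 := by
      rw [mul_assoc, xx_xx 0, mul_zero]
    rw [mul_xx] at h
    have h2 := congrArg snd h
    rw [snd_mk, snd_zero, Nat.cast_zero, zero_add] at h2
    exact h2

theorem mul_x0 (b : BB D) : b * xx 0 = 0 ↔ ∃ c : BB D, b = c * xx 1 := by
  constructor
  · intro h
    rw [← theta_zero_iff]
    rw [mul_xx] at h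
    have h2 := congrArg snd h
    rw [snd_mk, snd_zero, Nat.cast_zero, zero_add] at h2
    exact h2
  · rintro ⟨c, rfl⟩
    rw [mul_assoc, xx_xx 0, mul_zero]

theorem xx_mul_zero (j : ℕ) (b : BB D) : xx (j + 1) * b = 0 ↔ ∃ c : BB D, b = xx j * c := by
  constructor
  · intro h
    rw [xx_mul] at h
    have h2 := congrArg snd h
    rw [snd_mk, snd_zero] at h2
    push_cast at h2
    have h3 : b.fst = D.X (j : ZMod d) * b.snd + D.δ b.snd := by
      apply D.σ.injective
      rw [map_add, map_mul, D.σ_X, ← D.δ_σ]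
      apply D.add_eq_zero'
      rw [← h2]
      abel
    refine ⟨mk (D.σ.symm b.snd) 0, ?_⟩
    rw [xx_mul]
    apply ext
    · simp [h3]
    · simp
  · rintro ⟨c, rfl⟩
    rw [← mul_assoc, xx_xx, zero_mul]

/-- the action of `x_l` on `B / B x_1 = E` -/
def LL (D : EData K d E) (l : ZMod d) (f : E) : E :=
  D.δ (D.σ f) + D.X l * D.σ f + D.tm (D.σ f) (D.X 1)

theorem LL_add (l : ZMod d) (f g : E) : LL D l (f + g) = LL D l f + LL D l g := by
  unfold LL
  rw [map_add, map_add, mul_add, D.tm_add_left]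
  abel

theorem LL_zero (l : ZMod d) : LL D l 0 = 0 := by
  unfold LL
  rw [map_zero, map_zero, mul_zero, D.tm_zero_left]
  simp

theorem LL_sum (l : ZMod d) (s : Finset ℕ) (f : ℕ → E) :
    LL D l (∑ n ∈ s, f n) = ∑ n ∈ s, LL D l (f n) := by
  classical
  induction s using Finset.induction_on with
  | empty => simp [LL_zero]
  | insert a s ha ih => rw [sum_insert ha, sum_insert ha, LL_add, ih]

theorem LL_hom (l : ZMod d) {n : ℕ} {f : E} (hf : D.π n f = f) :
    LL D l f = D.δ (D.σ f) + (D.X l + D.X ((n : ZMod d) + 1)) * D.σ f := by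
  unfold LL
  have h : D.π n (D.σ f) = D.σ f := by rw [← D.σ_π, hf]
  rw [D.tm_hom' h, D.spow_X]
  have : (1 : ZMod d) + n = n + 1 := by ring
  rw [this]
  ring

theorem hom_LL (l : ZMod d) {n : ℕ} {f : E} (hf : D.π n f = f) :
    D.π (n + 1) (LL D l f) = LL D l f := by
  have h : D.π n (D.σ f) = D.σ f := by rw [← D.σ_π, hf]
  have h1 : D.π (n + 1) (D.δ (D.σ f)) = D.δ (D.σ f) := by rw [← D.δ_π, h]
  have h2 : ∀ m, D.π (n + 1) (D.X m * D.σ f) = D.X m * D.σ f := by
    intro m
    have := D.π_mul 1 n (D.X m) (D.σ f)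
    rw [D.π_X, h, add_comm] at this
    exact this
  rw [LL_hom l hf, add_mul, map_add, map_add, h1, h2, h2]

theorem theta_xx_mul (j : ℕ) (y : BB D) :
    theta (xx j * y) = LL D (j : ZMod d) (theta y) := by
  have h1 : y = mk (theta y) 0 + mk y.snd 0 * xx 1 := by
    rw [mk_mul_x1]
    apply ext
    · rw [fst_add, fst_mk, fst_mk]
      unfold theta
      rw [add_assoc, D.two, add_zero]
    · rw [snd_add, snd_mk, snd_mk, zero_add]
  have h2 : theta (xx j * (mk y.snd 0 * xx 1) : BB D) = 0 := by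
    rw [theta_zero_iff]
    exact ⟨xx j * mk y.snd 0, by rw [mul_assoc]⟩
  conv_lhs => rw [h1, mul_add, theta_add, h2, add_zero, xx_mul]
  unfold theta LL
  simp only [fst_mk, snd_mk, map_zero, mul_zero, zero_add, add_zero]
  abel

theorem exists_LL (j : ℕ) (hj : 1 ≤ j) (hjd : j < d) (f : E)
    (hf : LL D ((j + 1 : ℕ) : ZMod d) f = 0) : ∃ g, LL D (j : ZMod d) g = f := by
  -- homogeneous parts
  have h0 : ∀ n ∈ range (D.t + 1), LL D ((j + 1 : ℕ) : ZMod d) (D.π n f) = 0 := by
    apply D.sum_hom_zero _ _ 1 (fun n _ => hom_LL _ (D.π_idem n f))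
    rw [← LL_sum, D.π_sum, hf]
  have h1 : ∀ n ∈ range (D.t + 1), ∃ g, LL D (j : ZMod d) g = D.π n f := by
    intro n hn
    have h2 := h0 n hn
    rw [LL_hom _ (D.π_idem n f)] at h2
    set F := D.σ (D.π n f) with hF
    have hFn : D.π n F = F := by rw [hF, ← D.σ_π, D.π_idem]
    have hFf : D.π n f = D.σ.symm F := by rw [hF, AlgEquiv.symm_apply_apply]
    have hs : ∀ a, D.δ (D.σ.symm a) = D.σ.symm (D.δ a) := by
      intro a
      apply D.σ.injective
      rw [← D.δ_σ, AlgEquiv.apply_symm_apply, AlgEquiv.apply_symm_apply]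
    have hs2 : ∀ l : ZMod d, D.σ.symm (D.X (l + 1)) = D.X l := by
      intro l
      rw [← D.σ_X, AlgEquiv.symm_apply_apply]
    have hs3 : ∀ k a, D.π k (D.σ.symm a) = D.σ.symm (D.π k a) := by
      intro k a
      apply D.σ.injective
      rw [D.σ_π, AlgEquiv.apply_symm_apply, AlgEquiv.apply_symm_apply]
    by_cases hnj : (n : ZMod d) = (j : ZMod d)
    · -- the case `n = j` modulo `d`
      have hdn : ¬ d ∣ n := by
        intro h
        have h3 : (j : ZMod d) = 0 := by
          rw [← hnj]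
          exact (ZMod.natCast_eq_zero_iff n d).2 h
        rw [ZMod.natCast_eq_zero_iff] at h3
        exact absurd (Nat.le_of_dvd (by omega) h3) (by omega)
      obtain ⟨n', rfl⟩ : ∃ n', n = n' + 1 := by
        cases n with
        | zero => exact absurd (dvd_zero d) hdn
        | succ k => exact ⟨k, rfl⟩
      rw [hnj] at h2
      push_cast at h2
      rw [D.two, zero_mul, add_zero] at h2
      obtain ⟨b, hb1, hb2⟩ := D.acyc n' F hFn hdn h2
      refine ⟨D.σ.symm (D.σ.symm b), ?_⟩
      have hb3 : D.π n' (D.σ.symm (D.σ.symm b)) = D.σ.symm (D.σ.symm b) := by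
        rw [hs3, hs3, hb1]
      rw [LL_hom _ hb3, AlgEquiv.apply_symm_apply, hs, ← hb2, ← hnj, hFf]
      push_cast
      rw [D.two, zero_mul, add_zero]
    · have hlm : ((j + 1 : ℕ) : ZMod d) ≠ (n : ZMod d) + 1 := by
        intro h
        push_cast at h
        exact hnj (add_right_cancel h).symm
      have h3 := D.htp _ _ hlm F
      rw [h2, map_zero, zero_add] at h3
      cases n with
      | zero =>
        rw [← hFn, D.p_π_zero, map_zero, mul_zero, add_zero, hFn] at h3
        refine ⟨0, ?_⟩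
        rw [LL_zero, hFf, ← h3, map_zero]
      | succ n' =>
        set P := D.p ((j + 1 : ℕ) : ZMod d) F with hP
        have hPn : D.π n' P = P := by
          rw [hP, ← D.p_π, hFn]
        refine ⟨D.σ.symm (D.σ.symm P), ?_⟩
        have hb3 : D.π n' (D.σ.symm (D.σ.symm P)) = D.σ.symm (D.σ.symm P) := by
          rw [hs3, hs3, hPn]
        rw [LL_hom _ hb3, AlgEquiv.apply_symm_apply, hFf, ← h3, map_add, map_mul, map_add, ← hs]
        push_cast
        rw [hs2, hs2]
  choose! g hg using h1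
  refine ⟨∑ n ∈ range (D.t + 1), g n, ?_⟩
  rw [LL_sum, sum_congr rfl hg, D.π_sum]

theorem frob (b : BB D) (h : ∀ c : BB D, phi (b * c) = 0) : b = 0 := by
  have h1 : b.snd = 0 := by
    apply D.τ_tm_nondeg
    intro c
    have h2 := h (mk (D.σ.symm c) 0)
    rw [phi_apply, snd_mul, fst_mk, snd_mk, D.tm_zero_right, D.DD_zero, D.tm_zero_right,
      zero_add, add_zero, AlgEquiv.apply_symm_apply] at h2
    exact h2
  have h3 : b.fst = 0 := by
    apply D.τ_tm_nondeg
    intro c
    have h2 := h (mk 0 c)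
    rw [phi_apply, snd_mul, fst_mk, snd_mk, h1, D.tm_zero_left, D.tm_zero_left, add_zero,
      add_zero] at h2
    exact h2
  exact ext h3 h1

/-- the filtration by degree -/
def FF (n : ℕ) (x : BB D) : Prop := D.Ord n x.fst ∧ D.Ord (n - 1) x.snd

theorem FF_mul {n : ℕ} {x y : BB D} (hx : eps x = 0) (hy : FF n y) : FF (n + 1) (x * y) := by
  have hx1 : D.Ord 1 x.fst := by
    intro i hi
    have : i = 0 := by omega
    rw [this, D.π_zero]
    rw [eps_apply] at hx
    rw [hx, map_zero]
  have hx0 : D.Ord 0 x.snd := fun i hi => absurd hi (by omega)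
  have hx0' : D.Ord 0 x.fst := fun i hi => absurd hi (by omega)
  obtain ⟨hy1, hy2⟩ := hy
  constructor
  · rw [fst_mul]
    refine EData.Ord.add D (EData.Ord.mono D (by omega) (EData.Ord.tm D hx1 hy1)) ?_
    exact EData.Ord.mono D (by omega) (EData.Ord.tm D hx0 (EData.Ord.δ D (EData.Ord.σ D hy1)))
  · rw [snd_mul]
    refine EData.Ord.add D (EData.Ord.add D ?_ ?_) ?_
    · exact EData.Ord.mono D (by omega) (EData.Ord.tm D hx1 hy2)
    · exact EData.Ord.mono D (by omega) (EData.Ord.tm D hx0 (EData.Ord.σ D hy1))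
    · exact EData.Ord.mono D (by omega)
        (EData.Ord.tm D hx0 (EData.Ord.δ D (EData.Ord.σ D hy2)))

theorem FF_prod (l : List (BB D)) (hl : ∀ b ∈ l, eps b = 0) : FF l.length l.prod := by
  induction l with
  | nil =>
    constructor
    · intro i hi
      simp at hi
    · intro i hi
      simp at hi
  | cons a l ih =>
    rw [List.prod_cons, List.length_cons]
    exact FF_mul (hl a (by simp)) (ih fun b hb => hl b (by simp [hb]))

end BB

/-- the data of `B` -/
def yData (D : EData K d E) : YData K (BB D) d where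
  x := BB.xx
  φ := BB.phi
  ε := BB.eps
  fin := by
    have := D.fin
    exact (inferInstance : FiniteDimensional K (E × E))
  frob := BB.frob
  nilp := by
    refine ⟨D.t + 2, fun l hl hb => ?_⟩
    have h := BB.FF_prod l hb
    rw [hl] at h
    exact BB.ext (EData.Ord.eq_zero D (by omega) h.1) (EData.Ord.eq_zero D (by omega) h.2)
  eps_x := fun j => by
    rw [BB.eps_apply, BB.fst_xx, ← D.π_X, D.ε_π 0]
  lann := BB.mul_x0
  rann := BB.xx_mul_zero
  exM := by
    intro j hj hjd y hy
    rw [← BB.theta_zero_iff, BB.theta_xx_mul] at hy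
    obtain ⟨g, hg⟩ := BB.exists_LL j hj hjd _ hy
    have h1 : BB.theta (y + BB.xx j * BB.mk g 0) = 0 := by
      rw [BB.theta_add, BB.theta_xx_mul]
      have : BB.theta (BB.mk g 0 : BB D) = g := by
        unfold BB.theta
        rw [BB.fst_mk, BB.snd_mk, D.tm_zero_left, add_zero]
      rw [this, hg, D.two]
    rw [BB.theta_zero_iff] at h1
    obtain ⟨c, hc⟩ := h1
    refine ⟨-BB.mk g 0, c, ?_⟩
    rw [← hc]
    noncomm_ring
  nex := by
    refine ⟨1, ⟨1, ?_⟩, ?_⟩
    · rw [mul_one, one_mul]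
      apply BB.ext
      · rw [BB.fst_xx, BB.fst_xx]
        congr 1
        push_cast
        rw [ZMod.natCast_self, zero_add]
      · rfl
    · rintro ⟨u, v, h⟩
      have h1 := congrArg BB.eps h
      have hx : ∀ j, BB.eps (BB.xx j : BB D) = 0 := by
        intro j
        rw [BB.eps_apply, BB.fst_xx, ← D.π_X, D.ε_π 0]
      rw [map_one, map_add, map_mul, map_mul, hx, hx, zero_mul, mul_zero, add_zero] at h1
      exact one_ne_zero h1

theorem stmtB2 : StmtB2 := by
  intro K _ d E _ _ D _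
  exact ⟨BB D, inferInstance, inferInstance, ⟨yData D⟩⟩

end Pool.Agent.Run7.H229
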