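import Pool.Agent.Run7.h229.Iface

set_option autoImplicit false

namespace Pool.Agent.Run7.H229

open CategoryTheory

theorem final (hA0 : StmtA0) (hA1 : StmtA1b) (hA2 : StmtA2) (hA3 : StmtA3) (hB1 : StmtB1)
    (hB2 : StmtB2) :
    ¬ (∀ (k : Type) [Field k], ∃ φ : ℕ → ℕ,
    ∀ (A : Type) [Ring A] [Algebra k A] [FiniteDimensional k A],
    ∀ (n : ℕ) (S : Fin n → ModuleCat.{0} A),
      (∀ i, IsSimpleModule A (S i)) →
      (∀ i j, Nonempty (S i ≃ₗ[A] S j) → i = j) →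
      (∀ M : ModuleCat.{0} A, IsSimpleModule A M → ∃ i, Nonempty (M ≃ₗ[A] S i)) →
      ∀ P : ℕ → Prop,
        (∀ m, P m ↔ ∃ (I : ℕ → ModuleCat.{0} A) (ε : A →ₗ[A] I 0)
            (d : ∀ i, I i →ₗ[A] I (i + 1)),
            Function.Injective ε ∧
            (1 < m → Function.Exact ε (d 0)) ∧
            (∀ i, i + 2 < m → Function.Exact (d i) (d (i + 1))) ∧
            ∀ j, j < m → Module.Projective A (I j) ∧ Module.Injective A (I j)) →
        (∀ m, P m) ∨ ¬ P (φ n + 1)) := by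
  have hB : StmtB := by
    intro m hm
    obtain ⟨E, _, _, ⟨D⟩⟩ := hB1 m hm
    exact hB2 D hm
  intro H
  obtain ⟨φ, hφ⟩ := H (ZMod 2)
  obtain ⟨B, _, _, ⟨D⟩⟩ := hB (2 * φ 2 + 1) ⟨φ 2, by ring⟩
  have := hA0 D
  obtain ⟨S, h1, h2, h3⟩ := hA3 D
  rcases hφ (YA D) 2 S h1 h2 h3 (DomDimGE (YA D)) (fun m => Iff.rfl) with h | h
  · exact hA2 D (by omega) (h _)
  · exact h (hA1 D (by omega) _ (by omega))

end Pool.Agent.Run7.H229
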