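import Mathlib

/-!
# Interface: dominant dimension is not bounded by the number of simple modules (MP_1ef125_al)

`YData K B m` : a finite-dimensional Frobenius algebra `B` with augmentation and a sequence of
elements `x 0, x 1, ...` such that the cyclic module `M = B / B x_1` has
`Ext^i (M, M) = 0` for `1 ≤ i < m` but not for `i = m`.

`A = End_B (B × M)` then has exactly two simple modules and dominant dimension `m + 1`.
-/

set_option autoImplicit false

namespace Pool.Agent.Run7.H229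

open CategoryTheory

/-- the input data -/
structure YData (K : Type) [Field K] (B : Type) [Ring B] [Algebra K B] (m : ℕ) where
  /-- the sequence of elements -/
  x : ℕ → B
  /-- the Frobenius form -/
  φ : B →ₗ[K] K
  /-- the augmentation -/
  ε : B →ₐ[K] K
  fin : FiniteDimensional K B
  frob : ∀ b, (∀ c, φ (b * c) = 0) → b = 0
  /-- the augmentation ideal is nilpotent -/
  nilp : ∃ n : ℕ, ∀ l : List B, l.length = n → (∀ b ∈ l, ε b = 0) → l.prod = 0
  eps_x : ∀ j, ε (x j) = 0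
  lann : ∀ b, b * x 0 = 0 ↔ ∃ c, b = c * x 1
  rann : ∀ j b, x (j + 1) * b = 0 ↔ ∃ c, b = x j * c
  exM : ∀ j, 1 ≤ j → j < m → ∀ y, (∃ c, x (j + 1) * y = c * x 1) → ∃ u v, y = x j * u + v * x 1
  nex : ∃ y, (∃ c, x (m + 1) * y = c * x 1) ∧ ¬ ∃ u v, y = x m * u + v * x 1

variable {K : Type} [Field K] {B : Type} [Ring B] [Algebra K B] {m : ℕ}

/-- `M = B / B x_1` -/
abbrev YM (D : YData K B m) : Type := B ⧸ (Submodule.span B {D.x 1})

/-- `N = B × M` -/
abbrev YN (D : YData K B m) : Type := B × YM D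

/-- `A = End_B N` -/
abbrev YA (D : YData K B m) : Type := Module.End B (YN D)

/-- the predicate of the frozen statement -/
def DomDimGE (A : Type) [Ring A] (m : ℕ) : Prop :=
  ∃ (I : ℕ → ModuleCat.{0} A) (ε : A →ₗ[A] I 0) (d : ∀ i, I i →ₗ[A] I (i + 1)),
    Function.Injective ε ∧
    (1 < m → Function.Exact ε (d 0)) ∧
    (∀ i, i + 2 < m → Function.Exact (d i) (d (i + 1))) ∧
    ∀ j, j < m → Module.Projective A (I j) ∧ Module.Injective A (I j)

/-- piece A0 -/
def StmtA0 : Prop := ∀ {K : Type} [Field K] {B : Type} [Ring B] [Algebra K B] {m : ℕ}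
  (D : YData K B m), FiniteDimensional K (YA D)

/-- piece A1a: `N` is projective and injective over `A` -/
def StmtA1a : Prop := ∀ {K : Type} [Field K] {B : Type} [Ring B] [Algebra K B] {m : ℕ}
  (D : YData K B m), Module.Projective (YA D) (YN D) ∧ Module.Injective (YA D) (YN D)

/-- piece A1b: dominant dimension at least `m + 1` -/
def StmtA1b : Prop := ∀ {K : Type} [Field K] {B : Type} [Ring B] [Algebra K B] {m : ℕ}
  (D : YData K B m), 1 ≤ m → ∀ j, j ≤ m + 1 → DomDimGE (YA D) j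

/-- piece A2: dominant dimension less than `m + 2` -/
def StmtA2 : Prop := ∀ {K : Type} [Field K] {B : Type} [Ring B] [Algebra K B] {m : ℕ}
  (D : YData K B m), 1 ≤ m → ¬ DomDimGE (YA D) (m + 2)

/-- piece A3: exactly two simple modules -/
def StmtA3 : Prop := ∀ {K : Type} [Field K] {B : Type} [Ring B] [Algebra K B] {m : ℕ}
  (D : YData K B m), ∃ S : Fin 2 → ModuleCat.{0} (YA D),
    (∀ i, IsSimpleModule (YA D) (S i)) ∧
    (∀ i j, Nonempty (S i ≃ₗ[YA D] S j) → i = j) ∧
    (∀ M : ModuleCat.{0} (YA D), IsSimpleModule (YA D) M → ∃ i, Nonempty (M ≃ₗ[YA D] S i))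

/-- The combinatorial input: a graded commutative algebra in characteristic two, in the
application `E = K[X_l : l ∈ ZMod d] / (X_l ^ (d + 1))` with `d` odd, `δ = ∑ X_l ^ 2 ∂_l`,
`p l = ∂_l`, `π n` the projection to the part of degree `n`, `σ X_l = X_{l+1}`, `τ` the coefficient
of the monomial `∏ X_l ^ d`, `ε` the constant coefficient and `t = d * d` the top degree. -/
structure EData (K : Type) [Field K] (d : ℕ) (E : Type) [CommRing E] [Algebra K E] where
  X : ZMod d → E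
  π : ℕ → E →ₗ[K] E
  σ : E ≃ₐ[K] E
  δ : E →ₗ[K] E
  p : ZMod d → E →ₗ[K] E
  τ : E →ₗ[K] K
  ε : E →ₐ[K] K
  t : ℕ
  fin : FiniteDimensional K E
  two : ∀ a : E, a + a = 0
  π_π : ∀ m n a, π m (π n a) = if m = n then π n a else 0
  π_sum : ∀ a, ∑ n ∈ Finset.range (t + 1), π n a = a
  π_mul : ∀ m n a b, π (m + n) (π m a * π n b) = π m a * π n b
  π_zero : ∀ a, π 0 a = algebraMap K E (ε a)
  π_X : ∀ l, π 1 (X l) = X l
  ε_π : ∀ n a, ε (π (n + 1) a) = 0
  σ_X : ∀ l, σ (X l) = X (l + 1)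
  σ_π : ∀ n a, σ (π n a) = π n (σ a)
  δ_mul : ∀ a b, δ (a * b) = a * δ b + δ a * b
  δ_X : ∀ l, δ (X l) = X l * X l
  δ_δ : ∀ a, δ (δ a) = 0
  δ_σ : ∀ a, δ (σ a) = σ (δ a)
  δ_π : ∀ n a, δ (π n a) = π (n + 1) (δ a)
  p_π : ∀ l n a, p l (π (n + 1) a) = π n (p l a)
  p_π_zero : ∀ l a, p l (π 0 a) = 0
  htp : ∀ l m, l ≠ m → ∀ a,
    p l (δ a + (X l + X m) * a) + (δ (p l a) + (X l + X m) * p l a) = a
  acyc : ∀ n a, π (n + 1) a = a → ¬ (d ∣ n + 1) → δ a = 0 → ∃ b, π n b = b ∧ a = δ b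
  τ_nondeg : ∀ a, (∀ b, τ (a * b) = 0) → a = 0
  τ_top : ∀ n a, n ≠ t → τ (π n a) = 0

/-- piece B1: the commutative algebras `E` -/
def StmtB1 : Prop := ∀ d : ℕ, Odd d → ∃ (E : Type) (_ : CommRing E) (_ : Algebra (ZMod 2) E),
  Nonempty (EData (ZMod 2) d E)

/-- piece B2: from `E` to `B` -/
def StmtB2 : Prop := ∀ {K : Type} [Field K] {d : ℕ} {E : Type} [CommRing E] [Algebra K E]
  (_ : EData K d E), Odd d → ∃ (B : Type) (_ : Ring B) (_ : Algebra K B), Nonempty (YData K B d)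

/-- piece B (follows from B1 and B2): the algebras -/
def StmtB : Prop := ∀ m : ℕ, Odd m → ∃ (B : Type) (_ : Ring B) (_ : Algebra (ZMod 2) B),
  Nonempty (YData (ZMod 2) B m)

end Pool.Agent.Run7.H229
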